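import Pool.Agent.helper25.P3.Rep

set_option autoImplicit false
set_option linter.unusedSectionVars false
set_option linter.unusedVariables false

/-!
# Project P3: binary plane matroids have a representation
-/

namespace Pool.Agent.helper25.P3

open Finset Pool.Agent.helper9.HB49 Pool.Agent.helper25.PV

variable {α : Type*} {M : Matroid α} [M.Finite]

theorem simple3 (hP : Pv M 3) {u v : α} (hu : u ∈ M.E) (hv : v ∈ M.E) (huv : u ≠ v) :
    ¬ P M u v := by
  classical
  refine not_P_of_indep huv ?_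
  have := hP.indep (D := {u, v}) (by
    intro w hw
    simp only [coe_insert, coe_singleton, Set.mem_insert_iff, Set.mem_singleton_iff] at hw
    rcases hw with rfl | rfl <;> assumption) (by rw [card_pair huv]; norm_num)
  simpa using this

theorem exists3 (hP : Pv M 3) : ∃ a ∈ M.E, ∃ b ∈ M.E, ∃ c ∈ M.E, ¬ D M a b c := by
  have h1 : ((3 : ℕ) : ℕ∞) ≤ M.eRk M.E := by rw [M.eRk_ground, hP.rank]
  obtain ⟨I, hI, hI2, h3⟩ := Matroid.le_eRk_iff.1 h1
  obtain ⟨a, b, c, hab, hac, hbc, rfl⟩ := Set.encard_eq_three.1 (by simpa using h3)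
  exact ⟨a, hI (by simp), b, hI (by simp), c, hI (by simp), not_D_of_indep hab hac hbc hI2⟩

theorem exists_off (hP : Pv M 3) {x y : α} (hx : x ∈ M.E) (hy : y ∈ M.E) (hxy : x ≠ y) :
    ∃ z ∈ M.E, ¬ D M x y z := by
  by_contra hcon
  push Not at hcon
  obtain ⟨a, ha, b, hb, c, hc, h⟩ := exists3 hP
  have hp := simple3 hP hx hy hxy
  -- all on the line
  have h1 := hcon a ha
  have h2 := hcon b hb
  have h3 := hcon c hc
  by_cases hxa : P M x a
  · have hxa' : x = a := by
      by_contra hne
      exact simple3 hP hx ha hne hxa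
    subst hxa'
    exact h (exch hp h2 h3)
  · have h4 : D M x a b := exch hp h1 h2
    have h5 : D M x a c := exch hp h1 h3
    exact h (exch (fun h6 => hxa (P_comm.1 h6)) (D12.1 h4) (D12.1 h5))

/-- the cocircuit of a line -/
def kset (M : Matroid α) (u v : α) : Set α := {x | x ∈ M.E ∧ ¬ D M u v x}

theorem kset_cocircuit (hP : Pv M 3) {u v : α} (hu : u ∈ M.E) (hv : v ∈ M.E) (huv : u ≠ v) :
    M.IsCocircuit (kset M u v) := by
  classical
  have hp := simple3 hP hu hv huv
  have hsp : ∀ X ⊆ M.E, M.Spanning X ↔ 3 ≤ rk M X := by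
    intro X hX
    rw [Matroid.spanning_iff_eRk_le', hP.rank, ← cast_rk]
    constructor
    · rintro ⟨h1, -⟩
      exact_mod_cast h1
    · intro h1
      exact ⟨by exact_mod_cast h1, hX⟩
  rw [Matroid.isCocircuit_iff_minimal_compl_nonspanning]
  refine ⟨?_, ?_⟩
  · show ¬ M.Spanning (M.E \ kset M u v)
    rw [hsp _ Set.sdiff_subset]
    have h1 : M.E \ kset M u v ⊆ M.closure {u, v} := by
      rintro x ⟨hx, hx2⟩
      refine mem_closure_of_D hp hx ?_
      by_contra h2
      exact hx2 ⟨hx, h2⟩
    have h2 := rk_mono (M := M) h1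
    have h3 : rk M (M.closure {u, v}) = rk M {u, v} := by rw [rk, rk, M.eRk_closure_eq]
    have h4 := rk_le_ncard (M := M) (X := {u, v}) (by simp)
    rw [Set.ncard_pair huv] at h4
    omega
  · intro X hX hXK y hy
    by_contra hyX
    apply hX
    rw [hsp _ Set.sdiff_subset]
    have h1 : ({u, v, y} : Set α) ⊆ M.E \ X := by
      intro w hw
      simp only [Set.mem_insert_iff, Set.mem_singleton_iff] at hw
      rcases hw with rfl | rfl | rfl
      · refine ⟨hu, fun h2 => (hXK h2).2 ?_⟩
        have := D_of_P (z := v) (P_self (M := M) w)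
        exact D23.1 this
      · refine ⟨hv, fun h2 => (hXK h2).2 ?_⟩
        have := D_of_P (z := u) (P_self (M := M) w)
        exact D13.1 this
      · exact ⟨hy.1, hyX⟩
    have h2 := rk_mono (M := M) h1
    have h3 := hy.2
    rw [D] at h3
    omega

/-- the indicator function with values in the field of two elements -/
noncomputable def chZ (K : Set α) (x : α) : ZMod 2 := by
  classical
  exact if x ∈ K then 1 else 0

theorem chZ_pos {K : Set α} {x : α} (h : x ∈ K) : chZ K x = 1 := by
  classical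
  unfold chZ
  rw [if_pos h]

theorem chZ_neg {K : Set α} {x : α} (h : x ∉ K) : chZ K x = 0 := by
  classical
  unfold chZ
  rw [if_neg h]

theorem chZ_sum {K : Set α} {C : Finset α} (h : Even ((C : Set α) ∩ K).ncard) :
    ∑ x ∈ C, chZ K x = 0 := by
  classical
  have h1 : (C : Set α) ∩ K = ((C.filter fun x => x ∈ K : Finset α) : Set α) := by
    ext x
    simp
  rw [h1, Set.ncard_coe_finset] at h
  have h2 : ∑ x ∈ C, chZ K x = ((C.filter fun x => x ∈ K).card : ZMod 2) := by
    unfold chZ
    rw [sum_boole]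
  rw [h2]
  exact (ZMod.natCast_eq_zero_iff_even).2 h

/-- the coordinates with respect to a basis -/
noncomputable def coord (M : Matroid α) (a b c : α) (x : α) : Fin 3 → ZMod 2 :=
  ![chZ (kset M b c) x, chZ (kset M a c) x, chZ (kset M a b) x]

theorem binary_rep (hP : Pv M 3) (hB : Binary M) : ∃ f, Rep M f := by
  classical
  obtain ⟨a, ha, b, hb, c, hc, habc⟩ := exists3 hP
  have hab := ne12 habc
  have hac := ne13 habc
  have hbc := ne23 habc
  set f := coord M a b c with hf
  refine ⟨f, ?_⟩
  have Ds : ∀ x y, D M x x y := fun x y => D_of_P (P_self x)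
  have Ds2 : ∀ x y, D M x y x := fun x y => D23.1 (Ds x y)
  have Ds3 : ∀ x y, D M y x x := fun x y => D13.1 (Ds x y)
  have hsum : ∀ C : Finset α, M.IsCircuit (C : Set α) → ∑ x ∈ C, f x = 0 := by
    intro C hC
    funext j
    rw [Finset.sum_apply, Pi.zero_apply]
    fin_cases j
    · show ∑ x ∈ C, chZ (kset M b c) x = 0
      exact chZ_sum (hB _ _ hC (kset_cocircuit hP hb hc hbc))
    · show ∑ x ∈ C, chZ (kset M a c) x = 0
      exact chZ_sum (hB _ _ hC (kset_cocircuit hP ha hc hac))
    · show ∑ x ∈ C, chZ (kset M a b) x = 0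
      exact chZ_sum (hB _ _ hC (kset_cocircuit hP ha hb hab))
  have hfa : f a = fun j => if j = 0 then 1 else 0 := by
    funext j
    fin_cases j
    · show chZ (kset M b c) a = 1
      exact chZ_pos ⟨ha, fun h1 => habc (Drot.2 h1)⟩
    · show chZ (kset M a c) a = 0
      exact chZ_neg fun h1 => h1.2 (Ds2 a c)
    · show chZ (kset M a b) a = 0
      exact chZ_neg fun h1 => h1.2 (Ds2 a b)
  have hfb : f b = fun j => if j = 1 then 1 else 0 := by
    funext j
    fin_cases j
    · show chZ (kset M b c) b = 0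
      exact chZ_neg fun h1 => h1.2 (Ds2 b c)
    · show chZ (kset M a c) b = 1
      exact chZ_pos ⟨hb, fun h1 => habc (D23.1 h1)⟩
    · show chZ (kset M a b) b = 0
      exact chZ_neg fun h1 => h1.2 (Ds3 b a)
  have hfc : f c = fun j => if j = 2 then 1 else 0 := by
    funext j
    fin_cases j
    · show chZ (kset M b c) c = 0
      exact chZ_neg fun h1 => h1.2 (Ds3 c b)
    · show chZ (kset M a c) c = 0
      exact chZ_neg fun h1 => h1.2 (Ds3 c a)
    · show chZ (kset M a b) c = 1
      exact chZ_pos ⟨hc, habc⟩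
  -- spanning
  have hspan : ∀ x ∈ M.E, ∀ y ∈ M.E, ∀ z ∈ M.E, ¬ D M x y z → ∀ t ∈ M.E,
      ∃ p q r : ZMod 2, f t = p • f x + q • f y + r • f z := by
    intro x hx y hy z hz hD t ht
    by_cases h1 : t = x
    · exact ⟨1, 0, 0, by rw [h1]; simp⟩
    by_cases h2 : t = y
    · exact ⟨0, 1, 0, by rw [h2]; simp⟩
    by_cases h3 : t = z
    · exact ⟨0, 0, 1, by rw [h3]; simp⟩
    have hind := indep_triple hD
    have hcard : ({t, x, y, z} : Finset α).card = 4 := by
      rw [card_insert_of_notMem (by simp [h1, h2, h3]), card_insert_of_notMem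
        (by simp [ne12 hD, ne13 hD]), card_pair (ne23 hD)]
    have hdep : M.Dep (({t, x, y, z} : Finset α) : Set α) := by
      refine ⟨?_, ?_⟩
      · intro h4
        rw [indep_iff_rk (Finset.finite_toSet _), Set.ncard_coe_finset, hcard] at h4
        have := hP.rk_le (({t, x, y, z} : Finset α) : Set α)
        omega
      · intro w hw
        simp only [coe_insert, coe_singleton, Set.mem_insert_iff, Set.mem_singleton_iff] at hw
        rcases hw with rfl | rfl | rfl | rfl <;> assumption
    obtain ⟨C, hCs, hC⟩ := hdep.exists_isCircuit_subset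
    have hCf := circuit_finite hC
    obtain ⟨F, rfl⟩ : ∃ F : Finset α, (F : Set α) = C := ⟨hCf.toFinset, by simp⟩
    have hFs : F ⊆ {t, x, y, z} := Finset.coe_subset.1 hCs
    have htF : t ∈ F := by
      by_contra h4
      apply hC.not_indep
      refine hind.subset fun w hw => ?_
      have h5 := hFs (mem_coe.1 hw)
      simp only [mem_insert, mem_singleton] at h5
      rcases h5 with rfl | h5 | h5 | h5
      · exact absurd (mem_coe.1 hw) h4
      · simp [h5]
      · simp [h5]
      · simp [h5]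
    have h5 := hsum F hC
    have h6 : ∑ w ∈ F, f w = ∑ w ∈ ({t, x, y, z} : Finset α), (if w ∈ F then (1 : ZMod 2) else 0) •
        f w := by
      rw [← sum_subset hFs]
      · exact sum_congr rfl fun w hw => by rw [if_pos hw, one_smul]
      · intro w _ hw
        rw [if_neg hw, zero_smul]
    rw [h6, sum_insert (by simp [h1, h2, h3]), sum_insert (by simp [ne12 hD, ne13 hD]),
      sum_insert (by simp [ne23 hD]), sum_singleton, if_pos htF, one_smul] at h5
    refine ⟨if x ∈ F then 1 else 0, if y ∈ F then 1 else 0, if z ∈ F then 1 else 0, ?_⟩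
    have h7 : f t = - ((if x ∈ F then (1 : ZMod 2) else 0) • f x +
        ((if y ∈ F then (1 : ZMod 2) else 0) • f y +
        (if z ∈ F then (1 : ZMod 2) else 0) • f z)) := eq_neg_of_add_eq_zero_left h5
    rw [h7, add_assoc]
    funext j
    rw [Pi.neg_apply]
    exact ZMod.neg_eq_self_mod_two _
  have hthree : ∀ x ∈ M.E, ∀ y ∈ M.E, ∀ z ∈ M.E, ¬ D M x y z →
      f x ≠ 0 ∧ f y ≠ 0 ∧ f z ≠ 0 ∧ f x ≠ f y ∧ f x ≠ f z ∧ f y ≠ f z ∧ f x + f y + f z ≠ 0 := by
    intro x hx y hy z hz hD
    refine span3 (f x) (f y) (f z) fun e => ?_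
    fin_cases e
    · obtain ⟨p, q, r, h1⟩ := hspan x hx y hy z hz hD a ha
      exact ⟨p, q, r, by rw [← h1, hfa]; rfl⟩
    · obtain ⟨p, q, r, h1⟩ := hspan x hx y hy z hz hD b hb
      exact ⟨p, q, r, by rw [← h1, hfb]; rfl⟩
    · obtain ⟨p, q, r, h1⟩ := hspan x hx y hy z hz hD c hc
      exact ⟨p, q, r, by rw [← h1, hfc]; rfl⟩
  refine ⟨?_, ?_, ?_, hsum⟩
  · intro x hx
    obtain ⟨y, hy, hxy⟩ : ∃ y ∈ M.E, x ≠ y := by
      by_cases h1 : x = a
      · exact ⟨b, hb, by rw [h1]; exact hab⟩
      · exact ⟨a, ha, h1⟩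
    obtain ⟨z, hz, hD⟩ := exists_off hP hx hy hxy
    exact (hthree x hx y hy z hz hD).1
  · intro x hx y hy hxy
    by_contra hne
    obtain ⟨z, hz, hD⟩ := exists_off hP hx hy hne
    exact (hthree x hx y hy z hz hD).2.2.2.1 hxy
  · intro x hx y hy z hz hxy hxz hyz
    constructor
    · intro h1
      have h2 : M.IsCircuit (({x, y, z} : Finset α) : Set α) := by
        rw [coe_insert, coe_insert, coe_singleton]
        exact circ3 hx hy hz h1 (simple3 hP hx hy hxy) (simple3 hP hx hz hxz)
          (simple3 hP hy hz hyz)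
      have h3 := hsum _ h2
      rw [sum_insert (by simp [hxy, hxz]), sum_insert (by simp [hyz]), sum_singleton,
        ← add_assoc] at h3
      exact h3
    · intro h1
      by_contra h2
      exact (hthree x hx y hy z hz h2).2.2.2.2.2.2 h1

theorem binary_hilbert (hP : Pv M 3) (hB : Binary M) : CircuitsHilbert M := by
  obtain ⟨f, hf⟩ := binary_rep hP hB
  exact hf.hilbert hP

end Pool.Agent.helper25.P3
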