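import Mathlib

set_option autoImplicit false
set_option linter.unusedSectionVars false
set_option linter.unusedVariables false

/-!
# Project P3: the circuits of the Fano plane
-/

namespace Pool.Agent.helper25.P3

open Finset

/-- the seven points -/
def vec (i : Fin 7) : Fin 3 → ZMod 2 := fun j => if (i.1 + 1).testBit j then 1 else 0

/-- the index of a nonzero vector -/
def dec (v : Fin 3 → ZMod 2) : Fin 7 :=
  if v 0 = 0 then (if v 1 = 0 then 3 else if v 2 = 0 then 1 else 5)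
  else (if v 1 = 0 then (if v 2 = 0 then 0 else 4) else if v 2 = 0 then 2 else 6)

/-- incidence -/
def inc (i j : Fin 7) : ℤ :=
  if (((i.1 + 1) &&& (j.1 + 1)).testBit 0 ^^ ((i.1 + 1) &&& (j.1 + 1)).testBit 1) ^^
    ((i.1 + 1) &&& (j.1 + 1)).testBit 2 then 1 else 0

theorem dec_vec : ∀ i, dec (vec i) = i := by decide +kernel

theorem vec_dec : ∀ v, v ≠ 0 → vec (dec v) = v := by decide +kernel

theorem vec_ne : ∀ i, vec i ≠ 0 := by decide +kernel

theorem vec_inj {i j : Fin 7} (h : vec i = vec j) : i = j := by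
  rw [← dec_vec i, h, dec_vec]

theorem inc_symm : ∀ i j, inc i j = inc j i := by decide +kernel

theorem inc01 : ∀ i j, inc i j = 0 ∨ inc i j = 1 := by decide +kernel

/-- three points on a line -/
theorem line3 : ∀ i j k, i ≠ j → vec i + vec j + vec k = 0 →
    (∀ l, Even (inc l i + (inc l j + inc l k))) ∧
    ∑ l, |inc l i + (inc l j + inc l k) - 2| ≤ 2 := by decide +kernel

/-- four points, no three of them on a line -/
theorem quad4 : ∀ i j k, i ≠ j → i ≠ k → j ≠ k → vec i + vec j + vec k ≠ 0 →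
    (∀ l, Even (inc l i + (inc l j + (inc l k + inc l (dec (vec i + vec j + vec k)))))) ∧
    ∑ l, |inc l i + (inc l j + (inc l k + inc l (dec (vec i + vec j + vec k)))) - 2| ≤ 2 := by
  decide +kernel

/-- the points of a line -/
theorem set3 : ∀ i, ∃ a b c, a ≠ b ∧ a ≠ c ∧ b ≠ c ∧ vec a + vec b + vec c = 0 ∧
    ∀ j, inc i j = 0 ↔ j = a ∨ j = b ∨ j = c := by decide +kernel

/-- the complement of a line -/
theorem set4 : ∀ i, ∃ a b c d, a ≠ b ∧ a ≠ c ∧ a ≠ d ∧ b ≠ c ∧ b ≠ d ∧ c ≠ d ∧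
    vec a + vec b + vec c ≠ 0 ∧ vec a + vec b + vec d ≠ 0 ∧ vec a + vec c + vec d ≠ 0 ∧
    vec b + vec c + vec d ≠ 0 ∧
    ∀ j, inc i j = 1 ↔ j = a ∨ j = b ∨ j = c ∨ j = d := by decide +kernel

/-- spanning -/
theorem span3 : ∀ u v w : Fin 3 → ZMod 2,
    (∀ e : Fin 3, ∃ a b c : ZMod 2, (fun j => if j = e then 1 else 0) = a • u + b • v + c • w) →
    u ≠ 0 ∧ v ≠ 0 ∧ w ≠ 0 ∧ u ≠ v ∧ u ≠ w ∧ v ≠ w ∧ u + v + w ≠ 0 := by decide +kernel

/-- rounding -/
theorem round7 (S : Fin 7 → ℤ) (t : ℚ) (ht : ∑ i, |(S i : ℚ) - t| ≤ t) :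
    ∃ n : ℤ, ∑ i, |S i - n| ≤ n := by
  set n := ⌊t⌋ with hn
  have h1 : (n : ℚ) ≤ t := Int.floor_le t
  have h2 : t < n + 1 := Int.lt_floor_add_one t
  set θ := t - n with hθ
  have h3 : 0 ≤ θ := by rw [hθ]; linarith
  have h4 : θ ≤ 1 := by rw [hθ]; linarith
  have key : ∀ s : ℤ, |(s : ℚ) - t| = (1 - θ) * |(s : ℚ) - n| + θ * |(s : ℚ) - (n + 1)| := by
    intro s
    rcases le_or_gt s n with h5 | h5
    · have h6 : (s : ℚ) ≤ n := by exact_mod_cast h5
      rw [abs_of_nonpos (by linarith), abs_of_nonpos (by linarith), abs_of_nonpos (by linarith)]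
      rw [hθ]; ring
    · have h6 : (n : ℚ) + 1 ≤ s := by exact_mod_cast h5
      rw [abs_of_nonneg (by linarith), abs_of_nonneg (by linarith), abs_of_nonneg (by linarith)]
      rw [hθ]; ring
  have h5 : ∑ i, |(S i : ℚ) - t| = (1 - θ) * ∑ i, |(S i : ℚ) - n| +
      θ * ∑ i, |(S i : ℚ) - (n + 1)| := by
    rw [mul_sum, mul_sum, ← sum_add_distrib]
    exact sum_congr rfl fun i _ => key (S i)
  by_contra hcon
  push Not at hcon
  have a1 : ((n : ℤ) : ℚ) < ∑ i, |(S i : ℚ) - n| := by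
    have := hcon n
    exact_mod_cast this
  have a2 : ((n : ℚ) + 1) < ∑ i, |(S i : ℚ) - (n + 1)| := by
    have := hcon (n + 1)
    exact_mod_cast this
  have h6 : t = (1 - θ) * n + θ * (n + 1) := by rw [hθ]; ring
  rw [h5] at ht
  have h7 : 0 ≤ (1 - θ) * (∑ i, |(S i : ℚ) - n| - n) := mul_nonneg (by linarith) (by linarith)
  have h8 : 0 ≤ θ * (∑ i, |(S i : ℚ) - (n + 1)| - (n + 1)) := mul_nonneg h3 (by linarith)
  have h9 : (1 - θ) * (∑ i, |(S i : ℚ) - n| - n) = 0 := by nlinarith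
  have h10 : θ * (∑ i, |(S i : ℚ) - (n + 1)| - (n + 1)) = 0 := by nlinarith
  rcases mul_eq_zero.1 h9 with h11 | h11
  · rcases mul_eq_zero.1 h10 with h12 | h12
    · linarith
    · linarith
  · linarith

theorem incsum (F : Fin 7 → ℤ) :
    ∑ j, inc 0 j * F j = F 0 + F 2 + F 4 + F 6 ∧ ∑ j, inc 1 j * F j = F 1 + F 2 + F 5 + F 6 ∧
    ∑ j, inc 2 j * F j = F 0 + F 1 + F 4 + F 5 ∧ ∑ j, inc 3 j * F j = F 3 + F 4 + F 5 + F 6 ∧
    ∑ j, inc 4 j * F j = F 0 + F 2 + F 3 + F 5 ∧ ∑ j, inc 5 j * F j = F 1 + F 2 + F 3 + F 4 ∧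
    ∑ j, inc 6 j * F j = F 0 + F 1 + F 3 + F 6 := by
  simp only [Fin.sum_univ_seven]
  simp only [show inc 0 0 = 1 by decide +kernel, show inc 0 1 = 0 by decide +kernel,
    show inc 0 2 = 1 by decide +kernel, show inc 0 3 = 0 by decide +kernel,
    show inc 0 4 = 1 by decide +kernel, show inc 0 5 = 0 by decide +kernel,
    show inc 0 6 = 1 by decide +kernel,
    show inc 1 0 = 0 by decide +kernel, show inc 1 1 = 1 by decide +kernel,
    show inc 1 2 = 1 by decide +kernel, show inc 1 3 = 0 by decide +kernel,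
    show inc 1 4 = 0 by decide +kernel, show inc 1 5 = 1 by decide +kernel,
    show inc 1 6 = 1 by decide +kernel,
    show inc 2 0 = 1 by decide +kernel, show inc 2 1 = 1 by decide +kernel,
    show inc 2 2 = 0 by decide +kernel, show inc 2 3 = 0 by decide +kernel,
    show inc 2 4 = 1 by decide +kernel, show inc 2 5 = 1 by decide +kernel,
    show inc 2 6 = 0 by decide +kernel,
    show inc 3 0 = 0 by decide +kernel, show inc 3 1 = 0 by decide +kernel,
    show inc 3 2 = 0 by decide +kernel, show inc 3 3 = 1 by decide +kernel,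
    show inc 3 4 = 1 by decide +kernel, show inc 3 5 = 1 by decide +kernel,
    show inc 3 6 = 1 by decide +kernel,
    show inc 4 0 = 1 by decide +kernel, show inc 4 1 = 0 by decide +kernel,
    show inc 4 2 = 1 by decide +kernel, show inc 4 3 = 1 by decide +kernel,
    show inc 4 4 = 0 by decide +kernel, show inc 4 5 = 1 by decide +kernel,
    show inc 4 6 = 0 by decide +kernel,
    show inc 5 0 = 0 by decide +kernel, show inc 5 1 = 1 by decide +kernel,
    show inc 5 2 = 1 by decide +kernel, show inc 5 3 = 1 by decide +kernel,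
    show inc 5 4 = 1 by decide +kernel, show inc 5 5 = 0 by decide +kernel,
    show inc 5 6 = 0 by decide +kernel,
    show inc 6 0 = 1 by decide +kernel, show inc 6 1 = 1 by decide +kernel,
    show inc 6 2 = 0 by decide +kernel, show inc 6 3 = 1 by decide +kernel,
    show inc 6 4 = 0 by decide +kernel, show inc 6 5 = 0 by decide +kernel,
    show inc 6 6 = 1 by decide +kernel, one_mul, zero_mul]
  refine ⟨?_, ?_, ?_, ?_, ?_, ?_, ?_⟩ <;> ring

theorem f7dec (P : Fin 7 → ℤ) (hev : ∀ i, Even (∑ j, inc i j * P j)) (t : ℚ)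
    (ht : ∑ i, |((∑ j, inc i j * P j : ℤ) : ℚ) - 2 * t| ≤ 2 * t) :
    ∃ c d : Fin 7 → ℕ, ∀ j, P j = ∑ i, (inc i j * c i + (1 - inc i j) * d i) := by
  choose S hS using hev
  have h1 : ∑ i, |(S i : ℚ) - t| ≤ t := by
    have h2 : ∀ i, |((∑ j, inc i j * P j : ℤ) : ℚ) - 2 * t| = 2 * |(S i : ℚ) - t| := by
      intro i
      rw [hS i]
      push_cast
      rw [show (S i : ℚ) + S i - 2 * t = 2 * (S i - t) by ring, abs_mul]
      norm_num
    rw [sum_congr rfl fun i _ => h2 i, ← mul_sum] at ht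
    linarith
  obtain ⟨n, hn⟩ := round7 S t h1
  obtain ⟨a0, a1, a2, a3, a4, a5, a6⟩ := incsum P
  rw [hS] at a0 a1 a2 a3 a4 a5 a6
  set c0 : Fin 7 → ℕ := fun i => (S i - n).toNat with hc0
  set d0 : Fin 7 → ℕ := fun i => (n - S i).toNat with hd0
  have hcd : ∀ i, (c0 i : ℤ) - d0 i = S i - n := by
    intro i
    simp only [hc0, hd0]
    omega
  have habs : ∀ i, |S i - n| = c0 i + d0 i := by
    intro i
    simp only [hc0, hd0]
    rcases le_total (S i) n with h | h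
    · rw [abs_of_nonpos (by linarith)]
      omega
    · rw [abs_of_nonneg (by linarith)]
      omega
  rw [sum_congr rfl fun i _ => habs i] at hn
  rw [Fin.sum_univ_seven] at hn
  have b0 := hcd 0; have b1 := hcd 1; have b2 := hcd 2; have b3 := hcd 3; have b4 := hcd 4
  have b5 := hcd 5; have b6 := hcd 6
  obtain ⟨m, hm⟩ : ∃ m : ℕ, (m : ℤ) = 4 * n - (P 0 + P 1 + P 2 + P 3 + P 4 + P 5 + P 6) -
      (d0 0 + d0 1 + d0 2 + d0 3 + d0 4 + d0 5 + d0 6) := by
    refine ⟨(4 * n - (P 0 + P 1 + P 2 + P 3 + P 4 + P 5 + P 6) -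
      (d0 0 + d0 1 + d0 2 + d0 3 + d0 4 + d0 5 + d0 6)).toNat, Int.toNat_of_nonneg ?_⟩
    linarith
  refine ⟨fun i => c0 i + if i = 0 then m else 0, fun i => d0 i + if i = 0 then m else 0, ?_⟩
  have hsplit : ∀ j, ∑ i, (inc i j * ((c0 i + if i = 0 then m else 0 : ℕ) : ℤ) +
      (1 - inc i j) * ((d0 i + if i = 0 then m else 0 : ℕ) : ℤ)) =
      ∑ i, inc j i * ((c0 i : ℤ) - d0 i) + (d0 0 + d0 1 + d0 2 + d0 3 + d0 4 + d0 5 + d0 6) +
        m := by
    intro j
    have e1 : ∀ i, inc i j * ((c0 i + if i = 0 then m else 0 : ℕ) : ℤ) +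
      (1 - inc i j) * ((d0 i + if i = 0 then m else 0 : ℕ) : ℤ) =
      inc j i * ((c0 i : ℤ) - d0 i) + (d0 i + if i = 0 then (m : ℤ) else 0) := by
      intro i
      rw [inc_symm i j]
      split_ifs <;> push_cast <;> ring
    rw [sum_congr rfl fun i _ => e1 i, sum_add_distrib, sum_add_distrib, sum_ite_eq',
      if_pos (mem_univ _), Fin.sum_univ_seven (fun i => (d0 i : ℤ))]
    ring
  intro j
  rw [hsplit j]
  obtain ⟨g0, g1, g2, g3, g4, g5, g6⟩ := incsum fun i => (c0 i : ℤ) - d0 i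
  fin_cases j
  · show P 0 = _
    have := g0
    rw [show (∑ i, inc ((fun i => i) ⟨0, by norm_num⟩ : Fin 7) i * ((c0 i : ℤ) - d0 i)) =
      ∑ i, inc 0 i * ((c0 i : ℤ) - d0 i) from rfl, g0]
    linarith
  · show P 1 = _
    rw [show (∑ i, inc ((fun i => i) ⟨1, by norm_num⟩ : Fin 7) i * ((c0 i : ℤ) - d0 i)) =
      ∑ i, inc 1 i * ((c0 i : ℤ) - d0 i) from rfl, g1]
    linarith
  · show P 2 = _
    rw [show (∑ i, inc ((fun i => i) ⟨2, by norm_num⟩ : Fin 7) i * ((c0 i : ℤ) - d0 i)) =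
      ∑ i, inc 2 i * ((c0 i : ℤ) - d0 i) from rfl, g2]
    linarith
  · show P 3 = _
    rw [show (∑ i, inc ((fun i => i) ⟨3, by norm_num⟩ : Fin 7) i * ((c0 i : ℤ) - d0 i)) =
      ∑ i, inc 3 i * ((c0 i : ℤ) - d0 i) from rfl, g3]
    linarith
  · show P 4 = _
    rw [show (∑ i, inc ((fun i => i) ⟨4, by norm_num⟩ : Fin 7) i * ((c0 i : ℤ) - d0 i)) =
      ∑ i, inc 4 i * ((c0 i : ℤ) - d0 i) from rfl, g4]
    linarith
  · show P 5 = _
    rw [show (∑ i, inc ((fun i => i) ⟨5, by norm_num⟩ : Fin 7) i * ((c0 i : ℤ) - d0 i)) =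
      ∑ i, inc 5 i * ((c0 i : ℤ) - d0 i) from rfl, g5]
    linarith
  · show P 6 = _
    rw [show (∑ i, inc ((fun i => i) ⟨6, by norm_num⟩ : Fin 7) i * ((c0 i : ℤ) - d0 i)) =
      ∑ i, inc 6 i * ((c0 i : ℤ) - d0 i) from rfl, g6]
    linarith

end Pool.Agent.helper25.P3
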