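import Pool.Agent.helper25.P3.Low
import Pool.Agent.helper25.AG.Main6

set_option autoImplicit false
set_option linter.unusedSectionVars false
set_option linter.unusedVariables false

/-!
# Project P3: the classification of all paving matroids
-/

namespace Pool.Agent.helper25.P3

open Finset Pool.Agent.helper9.HB49 Pool.Agent.helper25.PV

variable {α : Type*} {M : Matroid α} [M.Finite] {r : ℕ}

theorem main_all (h : Pv M r) : CircuitsHilbert M ↔
    M.E.ncard ≤ r + 2 ∨ (r ≤ 3 ∧ Binary M) ∨ TU M r ∨ TC M r ∨ TS M r ∨ TwoLines M ∨ AG23 M ∨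
      PGT M 3 ∨ AGT M 3 ∨ PGT M 4 ∨ AGT M 4 := by
  classical
  have hrk : rk M M.E = r := by
    have h8 : (rk M M.E : ℕ∞) = r := by rw [cast_rk, M.eRk_ground, h.rank]
    exact_mod_cast h8
  rcases Nat.lt_or_ge r 2 with h1 | h1
  · have hr : ∀ X, rk M X ≤ 1 := fun X => (h.rk_le X).trans (by omega)
    exact ⟨fun _ => Or.inr (Or.inl ⟨by omega, rank_one_binary hr⟩), fun _ => rank_one_hilbert hr⟩
  constructor
  · intro hH
    rcases Nat.lt_or_ge r 4 with h4 | h4
    · have h5 : r = 2 ∨ r = 3 := by omega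
      rcases h5 with rfl | rfl
      · rcases (main2 h).1 hH with h6 | h6
        · exact Or.inr (Or.inl ⟨by norm_num, h6⟩)
        · exact Or.inr (Or.inr (Or.inl h6))
      · rcases (main3 h).1 hH with h6 | h6 | h6 | h6 | h6
        · exact Or.inl h6
        · exact Or.inr (Or.inl ⟨le_rfl, h6⟩)
        · exact Or.inr (Or.inr (Or.inl h6))
        · exact Or.inr (Or.inr (Or.inr (Or.inl h6)))
        · exact Or.inr (Or.inr (Or.inr (Or.inr (Or.inr (Or.inl h6)))))
    · rcases (h.main6 h4).1 hH with h6 | h6 | h6 | h6 | h6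
      · exact Or.inl h6
      · exact Or.inr (Or.inr (Or.inl h6))
      · exact Or.inr (Or.inr (Or.inr (Or.inl h6)))
      · exact Or.inr (Or.inr (Or.inr (Or.inr (Or.inl h6))))
      · exact Or.inr (Or.inr (Or.inr (Or.inr (Or.inr (Or.inr h6)))))
  · rintro (h2 | ⟨h3, h2⟩ | h2 | h2 | h2 | h2 | h2 | h2 | h2 | h2 | h2)
    · exact corank_two (by rw [hrk]; exact h2)
    · have h5 : r = 2 ∨ r = 3 := by omega
      rcases h5 with rfl | rfl
      · exact rank_two_hilbert h h2
      · exact binary_hilbert h h2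
    · exact h2.hilbert
    · exact h2.hilbert (by omega)
    · exact h2.hilbert (by omega)
    · obtain ⟨L, Q, hd, hE, -, -, h6⟩ := h2
      exact lines_hilbert hd hE h6
    · exact h2.hilbert
    · exact h2.hilbert
    · exact h2.hilbert
    · exact h2.hilbert4
    · exact AG.hilbert4 h2

end Pool.Agent.helper25.P3
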