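import Pool.Agent.helper25.P3.Bin
import Pool.Agent.helper9.HB49.Main

set_option autoImplicit false
set_option linter.unusedSectionVars false
set_option linter.unusedVariables false

/-!
# Project P3: paving matroids of rank three
-/

namespace Pool.Agent.helper25.P3

open Finset Pool.Agent.helper9.HB49 Pool.Agent.helper25.PV

variable {α : Type*} {M : Matroid α} [M.Finite]

theorem card34 (hP : Pv M 3) {C : Set α} (hC : M.IsCircuit C) : C.ncard = 3 ∨ C.ncard = 4 := by
  classical
  have h1 := circuit_rk hC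
  have h2 := hP.pav C hC
  have h3 := hP.rk_le C
  omega

/-- a triple of collinear points of a circuit is the circuit -/
theorem tri_eq (hP : Pv M 3) {C : Set α} (hC : M.IsCircuit C) {x y z : α} (hx : x ∈ C)
    (hy : y ∈ C) (hz : z ∈ C) (hxy : x ≠ y) (hxz : x ≠ z) (hyz : y ≠ z) (hD : D M x y z) :
    C = {x, y, z} := by
  by_contra hne
  have hsub : ({x, y, z} : Set α) ⊆ C := by
    intro w hw
    simp only [Set.mem_insert_iff, Set.mem_singleton_iff] at hw
    rcases hw with rfl | rfl | rfl <;> assumption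
  exact not_D_of_indep hxy hxz hyz (hC.ssubset_indep (hsub.ssubset_of_ne (Ne.symm hne))) hD

theorem tc_of_line (hP : Pv M 3) {e f : α} (he : e ∈ M.E) (hf : f ∈ M.E) (hef : e ≠ f)
    (h1 : ∀ g ∈ M.E, g ≠ e → g ≠ f → ¬ D M e f g)
    (hX : ∀ g ∈ M.E, ∀ h ∈ M.E, g ≠ e → g ≠ f → h ≠ e → h ≠ f → g ≠ h → ¬ D M f g h)
    (hA : ∀ g ∈ M.E, ∀ h ∈ M.E, g ≠ e → g ≠ f → h ≠ e → h ≠ f → g ≠ h → D M e g h) :
    TC M 3 := by
  classical
  have hcol : ∀ x ∈ M.E, ∀ y ∈ M.E, ∀ z ∈ M.E, x ≠ f → y ≠ f → z ≠ f → x ≠ y → x ≠ z → y ≠ z →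
      D M x y z := by
    intro x hx y hy z hz hxf hyf hzf hxy hxz hyz
    by_cases hxe : x = e
    · subst hxe
      exact hA y hy z hz (Ne.symm hxy) hyf (Ne.symm hxz) hzf hyz
    by_cases hye : y = e
    · subst hye
      exact D12.1 (hA x hx z hz hxy hxf (Ne.symm hyz) hzf hxz)
    by_cases hze : z = e
    · subst hze
      exact Drot.1 (hA x hx y hy hxz hxf hyz hyf hxy)
    have a1 := hA x hx y hy hxe hxf hye hyf hxy
    have a2 := hA x hx z hz hxe hxf hze hzf hxz
    exact exch (simple3 hP hx he hxe) (D12.1 a1) (D12.1 a2)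
  refine ⟨f, hf, fun C => ?_⟩
  constructor
  · intro hC
    have hCE := hC.subset_ground
    have hCf := circuit_finite hC
    have hfC : f ∉ C := by
      intro hfC
      -- two or three other points
      have h2 : (C \ {f}).ncard = C.ncard - 1 := by
        rw [Set.ncard_sdiff_singleton_of_mem hfC]
      rcases card34 hP hC with h3 | h3
      · rw [h3] at h2
        obtain ⟨g, h, hgh, hgh2⟩ := Set.ncard_eq_two.1 h2
        have hg : g ∈ C \ {f} := by rw [hgh2]; simp
        have hh : h ∈ C \ {f} := by rw [hgh2]; simp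
        have hCe : C = {f, g, h} := by
          have : C = insert f (C \ {f}) := by simp [hfC]
          rw [this, hgh2]
        have hD : D M f g h := by
          rw [D, ← hCe]
          have := circuit_rk hC
          omega
        by_cases hge : g = e
        · subst hge
          refine h1 h (hCE hh.1) (fun h4 => hgh h4.symm) (fun h4 => hh.2 h4) ?_
          exact D12.1 hD
        by_cases hhe : h = e
        · subst hhe
          refine h1 g (hCE hg.1) hge (fun h4 => hg.2 h4) ?_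
          exact Drot.1 (Drot.1 hD)
        exact hX g (hCE hg.1) h (hCE hh.1) hge (fun h4 => hg.2 h4) hhe (fun h4 => hh.2 h4) hgh hD
      · rw [h3] at h2
        obtain ⟨x, y, z, hxy, hxz, hyz, hS⟩ := Set.ncard_eq_three.1 h2
        have hx' : x ∈ C \ {f} := by rw [hS]; simp
        have hy' : y ∈ C \ {f} := by rw [hS]; simp
        have hz' : z ∈ C \ {f} := by rw [hS]; simp
        have := tri_eq hP hC hx'.1 hy'.1 hz'.1 hxy hxz hyz (hcol x (hCE hx'.1) y (hCE hy'.1) z
          (hCE hz'.1) (fun h4 => hx'.2 h4) (fun h4 => hy'.2 h4) (fun h4 => hz'.2 h4) hxy hxz hyz)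
        rw [this, ncard3 hxy hxz hyz] at h3
        omega
    refine ⟨fun w hw => ⟨hCE hw, fun h2 => hfC (h2 ▸ hw)⟩, ?_⟩
    rcases card34 hP hC with h3 | h3
    · exact h3
    · exfalso
      have h4 : 2 < C.ncard := by omega
      obtain ⟨x, y, z, hx', hy', hz', hxy, hxz, hyz⟩ := (Set.two_lt_ncard_iff hCf).1 h4
      have := tri_eq hP hC hx' hy' hz' hxy hxz hyz (hcol x (hCE hx') y (hCE hy') z
          (hCE hz') (fun h4 => hfC (h4 ▸ hx')) (fun h4 => hfC (h4 ▸ hy'))
          (fun h4 => hfC (h4 ▸ hz')) hxy hxz hyz)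
      rw [this, ncard3 hxy hxz hyz] at h3
      omega
  · rintro ⟨hCE, h3⟩
    obtain ⟨x, y, z, hxy, hxz, hyz, rfl⟩ := Set.ncard_eq_three.1 h3
    have hx' := hCE (show x ∈ ({x, y, z} : Set α) by simp)
    have hy' := hCE (show y ∈ ({x, y, z} : Set α) by simp)
    have hz' := hCE (show z ∈ ({x, y, z} : Set α) by simp)
    exact circ3 hx'.1 hy'.1 hz'.1 (hcol x hx'.1 y hy'.1 z hz'.1 (fun h4 => hx'.2 h4)
      (fun h4 => hy'.2 h4) (fun h4 => hz'.2 h4) hxy hxz hyz) (simple3 hP hx'.1 hy'.1 hxy)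
      (simple3 hP hx'.1 hz'.1 hxz) (simple3 hP hy'.1 hz'.1 hyz)

theorem tc_of_disc (hP : Pv M 3) (hn : ¬ Connected M) : TC M 3 := by
  classical
  unfold Connected at hn
  push Not at hn
  obtain ⟨e, he, f, hf, hef, hC⟩ := hn
  have h1 : ∀ g ∈ M.E, g ≠ e → g ≠ f → ¬ D M e f g := by
    intro g hg hge hgf hD
    refine hC _ (circ3 he hf hg hD (simple3 hP he hf hef) (simple3 hP he hg (Ne.symm hge))
      (simple3 hP hf hg (Ne.symm hgf))) (by simp) (by simp)
  have h2 : ∀ g ∈ M.E, ∀ h ∈ M.E, g ≠ e → g ≠ f → h ≠ e → h ≠ f → g ≠ h →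
      D M e g h ∨ D M f g h := by
    intro g hg h hh hge hgf hhe hhf hgh
    by_contra hcon
    push Not at hcon
    exact hC _ (circ4 hP.rk_le he hf hg hh (h1 g hg hge hgf) (h1 h hh hhe hhf) hcon.1 hcon.2)
      (by simp) (by simp)
  have hex : ∀ g ∈ M.E, ∀ h ∈ M.E, g ≠ e → g ≠ f → h ≠ e → h ≠ f → g ≠ h →
      D M e g h → D M f g h → False := by
    intro g hg h hh hge hgf hhe hhf hgh hA hB
    have := exch (simple3 hP hg hh hgh) (Drot.1 hA) (Drot.1 hB)
    exact h1 g hg hge hgf (Drot.1 this)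
  -- each vertex is monochromatic
  have hmono : ∀ g ∈ M.E, ∀ h ∈ M.E, ∀ k ∈ M.E, g ≠ e → g ≠ f → h ≠ e → h ≠ f → k ≠ e → k ≠ f →
      g ≠ h → g ≠ k → D M e g h → D M e g k := by
    intro g hg h hh k hk hge hgf hhe hhf hke hkf hgh hgk hA
    by_cases hhk : h = k
    · rw [← hhk]; exact hA
    rcases h2 g hg k hk hge hgf hke hkf hgk with h3 | h3
    · exact h3
    exfalso
    rcases h2 h hh k hk hhe hhf hke hkf hhk with h4 | h4
    · have h5 : D M e g k := exch (simple3 hP he hh (Ne.symm hhe)) (D23.1 hA) h4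
      exact hex g hg k hk hge hgf hke hkf hgk h5 h3
    · have h5 : D M f g h := exch (simple3 hP hf hk (Ne.symm hkf)) (D23.1 h3) (D23.1 h4)
      exact hex g hg h hh hge hgf hhe hhf hgh hA h5
  by_cases hall : ∃ g ∈ M.E, ∃ h ∈ M.E, g ≠ e ∧ g ≠ f ∧ h ≠ e ∧ h ≠ f ∧ g ≠ h ∧ D M e g h
  · obtain ⟨g, hg, h, hh, hge, hgf, hhe, hhf, hgh, hA⟩ := hall
    have hAll : ∀ x ∈ M.E, ∀ y ∈ M.E, x ≠ e → x ≠ f → y ≠ e → y ≠ f → x ≠ y → D M e x y := by
      intro x hx y hy hxe hxf hye hyf hxy
      -- from `g h` to `x y`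
      have step : ∀ z ∈ M.E, z ≠ e → z ≠ f → z ≠ g → D M e g z := fun z hz hze hzf hzg =>
        hmono g hg h hh z hz hge hgf hhe hhf hze hzf hgh (Ne.symm hzg) hA
      by_cases hxg : x = g
      · subst hxg
        exact step y hy hye hyf (Ne.symm hxy)
      · have h3 : D M e x g := D23.1 (step x hx hxe hxf hxg)
        by_cases hyg : y = g
        · subst hyg
          exact h3
        · exact hmono x hx g hg y hy hxe hxf hge hgf hye hyf hxg hxy h3
    exact tc_of_line hP he hf hef h1 (fun x hx y hy a1 a2 a3 a4 a5 h3 =>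
      hex x hx y hy a1 a2 a3 a4 a5 (hAll x hx y hy a1 a2 a3 a4 a5) h3) hAll
  · push Not at hall
    refine tc_of_line hP hf he (Ne.symm hef) (fun g hg a1 a2 h3 => h1 g hg a2 a1 (D12.1 h3)) ?_ ?_
    · intro x hx y hy a1 a2 a3 a4 a5
      exact hall x hx y hy a2 a1 a4 a3 a5
    · intro x hx y hy a1 a2 a3 a4 a5
      rcases h2 x hx y hy a2 a1 a4 a3 a5 with h3 | h3
      · exact absurd h3 (hall x hx y hy a2 a1 a4 a3 a5)
      · exact h3

theorem tu_of_uniform (hP : Pv M 3) (hn : 4 ≤ M.E.ncard) (h : UniformType M) : TU M 3 := by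
  classical
  obtain ⟨s, hs⟩ := h
  obtain ⟨a, ha, b, hb, c, hc, habc⟩ := exists3 hP
  have h3 : s + 1 ≠ 3 := by
    intro h4
    have : M.IsCircuit {a, b, c} := (hs _).2 ⟨by
      intro w hw
      simp only [Set.mem_insert_iff, Set.mem_singleton_iff] at hw
      rcases hw with rfl | rfl | rfl <;> assumption, by
      rw [ncard3 (ne12 habc) (ne13 habc) (ne23 habc), h4]⟩
    exact this.not_indep (indep_triple habc)
  have hEf := M.ground_finite
  obtain ⟨X, hX, hXc⟩ := exists_subset_card_eq (s := hEf.toFinset) (n := 4) (by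
    rw [← Set.ncard_eq_toFinset_card _ hEf]; exact hn)
  have hXE : (X : Set α) ⊆ M.E := by
    intro w hw
    exact (hEf.mem_toFinset).1 (hX (mem_coe.1 hw))
  have hdep : M.Dep (X : Set α) := by
    refine ⟨fun h4 => ?_, hXE⟩
    rw [indep_iff_rk X.finite_toSet, Set.ncard_coe_finset, hXc] at h4
    have := hP.rk_le (X : Set α)
    omega
  obtain ⟨C, hCX, hC⟩ := hdep.exists_isCircuit_subset
  have h5 := Set.ncard_le_ncard hCX X.finite_toSet
  rw [Set.ncard_coe_finset, hXc] at h5
  have h6 := hP.pav C hC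
  have h7 := ((hs C).1 hC).2
  have h8 : s = 3 := by omega
  subst h8
  exact hs

/-- the paving matroids of rank three -/
theorem main3 (hP : Pv M 3) : CircuitsHilbert M ↔
    M.E.ncard ≤ 3 + 2 ∨ Binary M ∨ TU M 3 ∨ TC M 3 ∨ TwoLines M := by
  classical
  have hrk : rk M M.E = 3 := by
    have h8 : (rk M M.E : ℕ∞) = (3 : ℕ) := by rw [cast_rk, M.eRk_ground, hP.rank]
    exact_mod_cast h8
  constructor
  · intro hH
    by_cases hn : M.E.ncard ≤ 3 + 2
    · exact Or.inl hn
    by_cases hB : Binary M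
    · exact Or.inr (Or.inl hB)
    by_cases hcon : Connected M
    · rcases (classification (by rw [hP.rank]; exact le_rfl) hcon hB).1 hH with h1 | h1 | h1
      · exact Or.inr (Or.inr (Or.inl (tu_of_uniform hP (by omega) h1)))
      · exact Or.inr (Or.inr (Or.inr (Or.inr h1)))
      · exfalso
        obtain ⟨L, X, y, -, -, -, hE, -, hX, h1⟩ := h1
        obtain ⟨u, hu, v, hv, huv⟩ := (Set.one_lt_ncard_iff (M.ground_finite.subset (by
          rw [← hE]; exact fun w hw => Or.inr (Or.inr hw)))).1 (by omega : 1 < X.ncard)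
        have hsub : ({u, hu} : Set α) ⊆ X := by
          intro w hw
          simp only [Set.mem_insert_iff, Set.mem_singleton_iff] at hw
          rcases hw with rfl | rfl <;> assumption
        have h2 : M.IsCircuit {u, hu} := (h1 _).2 ⟨hsub.trans (by
          rw [← hE]; exact fun w hw => Or.inr (Or.inr hw)), Or.inr (Or.inl ⟨hsub,
            Set.ncard_pair huv⟩)⟩
        have h3 := hP.pav _ h2
        rw [Set.ncard_pair huv] at h3
        omega
    · exact Or.inr (Or.inr (Or.inr (Or.inl (tc_of_disc hP hcon))))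
  · rintro (h1 | h1 | h1 | h1 | ⟨L, Q, hd, hE, -, -, h⟩)
    · exact corank_two (by rw [hrk]; exact h1)
    · exact binary_hilbert hP h1
    · exact h1.hilbert
    · exact h1.hilbert (by norm_num)
    · exact lines_hilbert hd hE h

end Pool.Agent.helper25.P3
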