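import Pool.Agent.helper25.P3.Part2
import Pool.Agent.helper25.P3.Three

set_option autoImplicit false
set_option linter.unusedSectionVars false
set_option linter.unusedVariables false

/-!
# Project P3: paving matroids of rank at most two
-/

namespace Pool.Agent.helper25.P3

open Finset Pool.Agent.helper9.HB49 Pool.Agent.helper25.PV

variable {α : Type*} {M : Matroid α} [M.Finite]

theorem rank_one_hilbert (hr : ∀ X, rk M X ≤ 1) : CircuitsHilbert M := by
  classical
  set E := M.ground_finite.toFinset with hE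
  have memE : ∀ x, x ∈ E ↔ x ∈ M.E := fun x => by rw [hE, Set.Finite.mem_toFinset]
  have key : Cls M (E.filter fun x => rk M {x} = 0)
      ![E.filter fun x => rk M {x} = 1, ∅, ∅] := by
    refine ⟨?_, ?_, ?_⟩
    · intro i j hij
      fin_cases i <;> fin_cases j <;> simp at hij ⊢
    · intro i
      fin_cases i
      · show Disjoint _ (E.filter fun x => rk M {x} = 1)
        rw [disjoint_left]
        intro x h1 h2
        rw [mem_filter] at h1 h2
        omega
      · exact disjoint_empty_right _
      · exact disjoint_empty_right _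
    · intro C
      constructor
      · intro hC
        have h1 := circuit_rk hC
        have h2 := hr C
        have h3 : C.ncard = 1 ∨ C.ncard = 2 := by omega
        rcases h3 with h3 | h3
        · obtain ⟨x, rfl⟩ := Set.ncard_eq_one.1 h3
          left
          refine ⟨x, mem_filter.2 ⟨(memE x).2 (hC.subset_ground (by simp)), by omega⟩, rfl⟩
        · obtain ⟨x, y, hxy, rfl⟩ := Set.ncard_eq_two.1 h3
          right; left
          have h4 : ∀ u ∈ ({x, y} : Set α), rk M {u} = 1 := by
            intro u hu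
            have h5 : M.Indep {u} := hC.ssubset_indep (by
              refine (Set.singleton_subset_iff.2 hu).ssubset_of_ne fun h6 => ?_
              rw [← h6, Set.ncard_singleton] at h3
              omega)
            rw [indep_iff_rk (by simp), Set.ncard_singleton] at h5
            exact h5
          exact ⟨0, x, mem_filter.2 ⟨(memE x).2 (hC.subset_ground (by simp)), h4 x (by simp)⟩,
            y, mem_filter.2 ⟨(memE y).2 (hC.subset_ground (by simp)), h4 y (by simp)⟩, hxy, rfl⟩
      · rintro (⟨x, hx, rfl⟩ | ⟨i, x, hx, y, hy, hxy, rfl⟩ | ⟨x, hx, y, hy, z, hz, rfl⟩)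
        · rw [mem_filter, memE] at hx
          refine isCircuit_of (Set.singleton_subset_iff.2 hx.1) (by simp) ?_ ?_
          · rw [hx.2, Set.ncard_singleton]
            norm_num
          · intro e he
            rw [Set.mem_singleton_iff.1 he, Set.sdiff_self]
            exact M.empty_indep
        · fin_cases i
          · rw [show (![E.filter fun x => rk M {x} = 1, ∅, ∅] : Fin 3 → Finset α)
              ((fun i => i) ⟨0, by norm_num⟩) = E.filter fun x => rk M {x} = 1 from rfl,
              mem_filter, memE] at hx hy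
            exact circ2 hx.1 hy.1 hx.2 hy.2 hxy (hr _)
          · exact absurd hx (notMem_empty _)
          · exact absurd hx (notMem_empty _)
        · exact absurd hy (notMem_empty _)
  exact key.hilbert

theorem rank_one_binary (hr : ∀ X, rk M X ≤ 1) : Binary M := by
  intro C K hC hK
  have h1 := circuit_rk hC
  have h2 := hr C
  have h3 := Set.ncard_le_ncard (Set.inter_subset_left : C ∩ K ⊆ C) (circuit_finite hC)
  have h4 : (C ∩ K).ncard ≠ 1 := by
    intro h
    obtain ⟨e, he⟩ := Set.ncard_eq_one.1 h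
    exact hC.inter_isCocircuit_ne_singleton hK he
  have h5 : (C ∩ K).ncard = 0 ∨ (C ∩ K).ncard = 2 := by omega
  rcases h5 with h5 | h5 <;> rw [h5] <;> decide

theorem loopless2 (hP : Pv M 2) {x : α} (hx : x ∈ M.E) : rk M {x} = 1 := by
  classical
  have := hP.indep (D := {x}) (by simpa using hx) (by simp)
  rw [coe_singleton, indep_iff_rk (by simp), Set.ncard_singleton] at this
  exact this

theorem kset2_cocircuit (hP : Pv M 2) {u : α} (hu : u ∈ M.E) :
    M.IsCocircuit {x | x ∈ M.E ∧ ¬ P M u x} := by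
  classical
  have hsp : ∀ X ⊆ M.E, M.Spanning X ↔ 2 ≤ rk M X := by
    intro X hX
    rw [Matroid.spanning_iff_eRk_le', hP.rank, ← cast_rk]
    constructor
    · rintro ⟨h1, -⟩
      exact_mod_cast h1
    · intro h1
      exact ⟨by exact_mod_cast h1, hX⟩
  rw [Matroid.isCocircuit_iff_minimal_compl_nonspanning]
  refine ⟨?_, ?_⟩
  · show ¬ M.Spanning (M.E \ {x | x ∈ M.E ∧ ¬ P M u x})
    rw [hsp _ Set.sdiff_subset]
    have h1 : M.E \ {x | x ∈ M.E ∧ ¬ P M u x} ⊆ M.closure {u} := by
      rintro x ⟨hx, hx2⟩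
      have hp : P M u x := by
        by_contra h2
        exact hx2 ⟨hx, h2⟩
      by_contra hcon
      have hi : M.Indep {u} := by
        rw [indep_iff_rk (by simp), Set.ncard_singleton]
        exact loopless2 hP hu
      obtain ⟨h3, h4⟩ := (hi.notMem_closure_iff hx).1 hcon
      refine not_P_of_indep (x := x) (y := u) (by simpa using h4) h3 (P_comm.1 hp)
    have h2 := rk_mono (M := M) h1
    have h3 : rk M (M.closure {u}) = rk M {u} := by rw [rk, rk, M.eRk_closure_eq]
    have h4 := loopless2 hP hu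
    omega
  · intro X hX hXK y hy
    by_contra hyX
    apply hX
    rw [hsp _ Set.sdiff_subset]
    have h1 : ({u, y} : Set α) ⊆ M.E \ X := by
      intro w hw
      simp only [Set.mem_insert_iff, Set.mem_singleton_iff] at hw
      rcases hw with rfl | rfl
      · exact ⟨hu, fun h2 => (hXK h2).2 (P_self _)⟩
      · exact ⟨hy.1, hyX⟩
    have h2 := rk_mono (M := M) h1
    have h3 := hy.2
    rw [P] at h3
    omega

theorem rank_two_hilbert (hP : Pv M 2) (hB : Binary M) : CircuitsHilbert M := by
  classical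
  have hr : ∀ X, rk M X ≤ 2 := hP.rk_le
  have hl : ∀ x ∈ M.E, rk M {x} = 1 := fun x hx => loopless2 hP hx
  have hD : ∀ x y z, D M x y z := fun x y z => hr _
  set E := M.ground_finite.toFinset with hE
  have memE : ∀ x, x ∈ E ↔ x ∈ M.E := fun x => by rw [hE, Set.Finite.mem_toFinset]
  -- at most three classes
  have h4 : ∀ a ∈ M.E, ∀ b ∈ M.E, ∀ c ∈ M.E, ∀ d ∈ M.E, ¬ P M a b → ¬ P M a c → ¬ P M b c →
      ¬ P M d a → ¬ P M d b → ¬ P M d c → False := by
    intro a ha b hb c hc d hd hab hac hbc hda hdb hdc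
    have hC := circ3 ha hb hc (hD a b c) hab hac hbc
    have hK := kset2_cocircuit hP hd
    have := hB _ _ hC hK
    have h5 : ({a, b, c} : Set α) ∩ {x | x ∈ M.E ∧ ¬ P M d x} = {a, b, c} := by
      refine Set.inter_eq_left.2 fun w hw => ?_
      simp only [Set.mem_insert_iff, Set.mem_singleton_iff] at hw
      rcases hw with rfl | rfl | rfl
      · exact ⟨ha, hda⟩
      · exact ⟨hb, hdb⟩
      · exact ⟨hc, hdc⟩
    rw [h5, ncard3 (ne_of_not_P hab) (ne_of_not_P hac) (ne_of_not_P hbc)] at this
    exact absurd this (by decide)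
  obtain ⟨a, ha, b, hb, hab⟩ : ∃ a ∈ M.E, ∃ b ∈ M.E, ¬ P M a b := by
    have h1 : ((2 : ℕ) : ℕ∞) ≤ M.eRk M.E := by rw [M.eRk_ground, hP.rank]
    obtain ⟨I, hI, hI2, h3⟩ := Matroid.le_eRk_iff.1 h1
    obtain ⟨x, y, hxy, rfl⟩ := Set.encard_eq_two.1 (by simpa using h3)
    exact ⟨x, hI (by simp), y, hI (by simp), not_P_of_indep hxy hI2⟩
  -- the classes
  obtain ⟨F2, hF2, h2a, h2b, hcov⟩ : ∃ F2 : Finset α, (∀ x ∈ F2, x ∈ M.E ∧ ∀ y ∈ F2, P M x y) ∧
      (∀ x ∈ F2, ¬ P M a x) ∧ (∀ x ∈ F2, ¬ P M b x) ∧
      ∀ x ∈ M.E, P M a x ∨ P M b x ∨ x ∈ F2 := by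
    refine ⟨E.filter fun x => ¬ P M a x ∧ ¬ P M b x, ?_, ?_, ?_, ?_⟩
    · intro x hx
      rw [mem_filter, memE] at hx
      refine ⟨hx.1, fun y hy => ?_⟩
      rw [mem_filter, memE] at hy
      by_contra hxy
      exact h4 a ha b hb x hx.1 y hy.1 hab hx.2.1 hx.2.2 (fun h => hy.2.1 (P_comm.1 h))
        (fun h => hy.2.2 (P_comm.1 h)) (fun h => hxy (P_comm.1 h))
    · intro x hx
      rw [mem_filter] at hx
      exact hx.2.1
    · intro x hx
      rw [mem_filter] at hx
      exact hx.2.2
    · intro x hx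
      by_cases h1 : P M a x
      · exact Or.inl h1
      by_cases h2 : P M b x
      · exact Or.inr (Or.inl h2)
      exact Or.inr (Or.inr (mem_filter.2 ⟨(memE x).2 hx, h1, h2⟩))
  set F : Fin 3 → Finset α := ![E.filter fun x => P M a x, E.filter fun x => P M b x, F2] with hF
  have mem0 : ∀ x, x ∈ F 0 ↔ x ∈ M.E ∧ P M a x := fun x => by
    show x ∈ E.filter _ ↔ _
    rw [mem_filter, memE]
  have mem1 : ∀ x, x ∈ F 1 ↔ x ∈ M.E ∧ P M b x := fun x => by
    show x ∈ E.filter _ ↔ _
    rw [mem_filter, memE]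
  have mem2 : ∀ x, x ∈ F 2 ↔ x ∈ F2 := fun x => Iff.rfl
  have hFE : ∀ i, ∀ x ∈ F i, x ∈ M.E := by
    intro i x hx
    fin_cases i
    · exact ((mem0 x).1 hx).1
    · exact ((mem1 x).1 hx).1
    · exact (hF2 x ((mem2 x).1 hx)).1
  have hsame : ∀ i, ∀ x ∈ F i, ∀ y ∈ F i, P M x y := by
    intro i x hx y hy
    fin_cases i
    · exact P_trans (hl a ha) (P_comm.1 ((mem0 x).1 hx).2) ((mem0 y).1 hy).2
    · exact P_trans (hl b hb) (P_comm.1 ((mem1 x).1 hx).2) ((mem1 y).1 hy).2
    · exact (hF2 x ((mem2 x).1 hx)).2 y ((mem2 y).1 hy)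
  have d01 : ∀ x ∈ F 0, ∀ y ∈ F 1, ¬ P M x y := by
    intro x hx y hy hxy
    have h1 := P_trans (hl x (hFE 0 x hx)) ((mem0 x).1 hx).2 hxy
    exact hab (P_trans (hl y (hFE 1 y hy)) h1 (P_comm.1 ((mem1 y).1 hy).2))
  have d02 : ∀ x ∈ F 0, ∀ y ∈ F 2, ¬ P M x y := by
    intro x hx y hy hxy
    exact h2a y ((mem2 y).1 hy) (P_trans (hl x (hFE 0 x hx)) ((mem0 x).1 hx).2 hxy)
  have d12 : ∀ x ∈ F 1, ∀ y ∈ F 2, ¬ P M x y := by
    intro x hx y hy hxy
    exact h2b y ((mem2 y).1 hy) (P_trans (hl x (hFE 1 x hx)) ((mem1 x).1 hx).2 hxy)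
  have hdiff : ∀ i j, i ≠ j → ∀ x ∈ F i, ∀ y ∈ F j, ¬ P M x y := by
    intro i j hij x hx y hy
    fin_cases i <;> fin_cases j
    · exact absurd rfl hij
    · exact d01 x hx y hy
    · exact d02 x hx y hy
    · exact fun h => d01 y hy x hx (P_comm.1 h)
    · exact absurd rfl hij
    · exact d12 x hx y hy
    · exact fun h => d02 y hy x hx (P_comm.1 h)
    · exact fun h => d12 y hy x hx (P_comm.1 h)
    · exact absurd rfl hij
  have hall : ∀ x ∈ M.E, ∃ i, x ∈ F i := by
    intro x hx
    rcases hcov x hx with h1 | h1 | h1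
    · exact ⟨0, (mem0 x).2 ⟨hx, h1⟩⟩
    · exact ⟨1, (mem1 x).2 ⟨hx, h1⟩⟩
    · exact ⟨2, h1⟩
  have key : Cls M ∅ F := by
    refine ⟨?_, fun i => disjoint_empty_left _, ?_⟩
    · intro i j hij
      rw [disjoint_left]
      intro x hx hx2
      exact hdiff i j hij x hx x hx2 (P_self _)
    · intro C
      constructor
      · intro hC
        have h1 := circuit_rk hC
        have h2 := hr C
        have h3 := hP.pav C hC
        have h5 : C.ncard = 2 ∨ C.ncard = 3 := by omega
        right
        rcases h5 with h5 | h5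
        · obtain ⟨x, y, hxy, rfl⟩ := Set.ncard_eq_two.1 h5
          left
          obtain ⟨i, hi⟩ := hall x (hC.subset_ground (by simp))
          obtain ⟨j, hj⟩ := hall y (hC.subset_ground (by simp))
          have hp : P M x y := by rw [P]; omega
          have hij : i = j := by
            by_contra hij
            exact hdiff i j hij x hi y hj hp
          subst hij
          exact ⟨i, x, hi, y, hj, hxy, rfl⟩
        · right
          obtain ⟨x, y, z, hxy, hxz, hyz, rfl⟩ := Set.ncard_eq_three.1 h5
          obtain ⟨i, hi⟩ := hall x (hC.subset_ground (by simp))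
          obtain ⟨j, hj⟩ := hall y (hC.subset_ground (by simp))
          obtain ⟨k, hk⟩ := hall z (hC.subset_ground (by simp))
          have np : ∀ u v : α, u ≠ v → u ∈ ({x, y, z} : Set α) → v ∈ ({x, y, z} : Set α) →
              ¬ P M u v := by
            intro u v huv hu hv
            refine not_P_of_indep huv (indep_sub_circuit hC ?_ ?_)
            · intro w hw
              simp only [Set.mem_insert_iff, Set.mem_singleton_iff] at hw
              rcases hw with rfl | rfl <;> assumption
            · rw [Set.ncard_pair huv, h5]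
              norm_num
          have hij : i ≠ j := by
            rintro rfl
            exact np x y hxy (by simp) (by simp) (hsame i x hi y hj)
          have hik : i ≠ k := by
            rintro rfl
            exact np x z hxz (by simp) (by simp) (hsame i x hi z hk)
          have hjk : j ≠ k := by
            rintro rfl
            exact np y z hyz (by simp) (by simp) (hsame j y hj z hk)
          fin_cases i <;> fin_cases j <;> fin_cases k
          all_goals first
            | exact absurd rfl hij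
            | exact absurd rfl hik
            | exact absurd rfl hjk
            | exact ⟨x, hi, y, hj, z, hk, rfl⟩
            | exact ⟨x, hi, z, hk, y, hj, by ext w; simp; tauto⟩
            | exact ⟨y, hj, x, hi, z, hk, by ext w; simp; tauto⟩
            | exact ⟨y, hj, z, hk, x, hi, by ext w; simp; tauto⟩
            | exact ⟨z, hk, x, hi, y, hj, by ext w; simp; tauto⟩
            | exact ⟨z, hk, y, hj, x, hi, by ext w; simp; tauto⟩
      · rintro (⟨x, hx, -⟩ | ⟨i, x, hx, y, hy, hxy, rfl⟩ | ⟨x, hx, y, hy, z, hz, rfl⟩)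
        · exact absurd hx (notMem_empty _)
        · exact circ2 (hFE i x hx) (hFE i y hy) (hl x (hFE i x hx)) (hl y (hFE i y hy)) hxy
            (hsame i x hx y hy)
        · exact circ3 (hFE 0 x hx) (hFE 1 y hy) (hFE 2 z hz) (hD x y z) (d01 x hx y hy)
            (d02 x hx z hz) (d12 y hy z hz)
  exact key.hilbert

/-- the paving matroids of rank two -/
theorem main2 (hP : Pv M 2) : CircuitsHilbert M ↔ Binary M ∨ TU M 2 := by
  classical
  have hr : ∀ X, rk M X ≤ 2 := hP.rk_le
  have hl : ∀ x ∈ M.E, rk M {x} = 1 := fun x hx => loopless2 hP hx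
  have hD : ∀ x y z, D M x y z := fun x y z => hr _
  constructor
  · intro hH
    by_cases hB : Binary M
    · exact Or.inl hB
    right
    rcases nonbinary_cases (fun X => (hr X).trans (by norm_num)) hl hB with
      ⟨h2, a, ha, b, hb, c, hc, d, hd, h⟩ | ⟨h3, -⟩ | ⟨a, ha, b, hb, c, hc, x, hx, y, hy, h⟩ |
      ⟨A, hA, h5⟩
    · obtain ⟨s, hs⟩ := uniform_of_alpha hH hl h2 h ha hb hc hd
      have h1 := ((hs _).1 (circ3 ha hb hc h.abc h.ab h.ac h.bc)).2
      rw [ncard3 (ne_of_not_P h.ab) (ne_of_not_P h.ac) (ne_of_not_P h.bc)] at h1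
      have h3 : s = 2 := by omega
      subst h3
      exact hs
    · have := hr M.E
      omega
    · exact absurd (hD _ _ _) h.abx
    · exfalso
      obtain ⟨x, y, z, hx, hy, hz, hxy, hxz, hyz⟩ := two_lt_card_iff.1 (by omega : 2 < A.card)
      exact hA.2 x hx y hy z hz hxy hxz hyz (hD x y z)
  · rintro (h1 | h1)
    · exact rank_two_hilbert hP h1
    · exact h1.hilbert

end Pool.Agent.helper25.P3
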