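import Pool.Agent.helper9.HB49.Suff

set_option autoImplicit false
set_option linter.unusedSectionVars false
set_option linter.unusedVariables false

/-!
# Project P3: pairs and transversals of three classes
-/

namespace Pool.Agent.helper25.P3

open Finset Pool.Agent.helper9.HB49

variable {α : Type*}

/-- sums of pairs -/
noncomputable def Pr (F : Finset α) : AddSubmonoid (α → ℤ) :=
  AddSubmonoid.closure {v | ∃ x ∈ F, ∃ y ∈ F, x ≠ y ∧ v = chi ℤ ({x, y} : Set α)}

theorem chi_pair [DecidableEq α] {x y : α} (h : x ≠ y) (w : α) :
    chi ℤ ({x, y} : Set α) w = (if w = x then 1 else 0) + if w = y then 1 else 0 := by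
  classical
  rw [chi_apply]
  by_cases h1 : w = x
  · subst h1
    simp [h]
  · by_cases h2 : w = y
    · subst h2
      simp [h1]
    · simp [h1, h2]

theorem pairs0 [DecidableEq α] (F : Finset α) : ∀ (n : ℕ) (z : α → ℕ), (∀ x ∉ F, z x = 0) →
    ∑ x ∈ F, z x = 2 * n → (∀ x, z x ≤ n) → (fun x => (z x : ℤ)) ∈ Pr F := by
  intro n
  induction n with
  | zero =>
    intro z _ _ h3
    have : (fun x => (z x : ℤ)) = 0 := by
      funext x
      have := h3 x
      simp only [Pi.zero_apply]
      omega
    rw [this]
    exact zero_mem _
  | succ n ih =>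
    intro z h1 h2 h3
    have hne : F.Nonempty := by
      by_contra hcon
      rw [not_nonempty_iff_eq_empty] at hcon
      rw [hcon, sum_empty] at h2
      omega
    obtain ⟨x, hx, hmax⟩ := exists_max_image F z hne
    have hs := add_sum_erase F z hx
    have hxle := h3 x
    have hne2 : (F.erase x).Nonempty := by
      by_contra hcon
      rw [not_nonempty_iff_eq_empty] at hcon
      rw [hcon, sum_empty] at hs
      omega
    obtain ⟨y, hy, hmax2⟩ := exists_max_image (F.erase x) z hne2
    have hyF := mem_of_mem_erase hy
    have hyx : y ≠ x := ne_of_mem_erase hy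
    have hs2 := add_sum_erase (F.erase x) z hy
    have hy1 : 1 ≤ z y := by
      by_contra hcon
      have h4 : ∑ w ∈ F.erase x, z w = 0 := by
        refine sum_eq_zero fun w hw => ?_
        have := hmax2 w hw
        omega
      omega
    have hxy := hmax y hyF
    set z' : α → ℕ := fun w => z w - (if w = x then 1 else 0) - if w = y then 1 else 0 with hz'
    have hz'x : z' x = z x - 1 := by simp [hz', Ne.symm hyx]
    have hz'y : z' y = z y - 1 := by simp [hz', hyx]
    have hz'w : ∀ w, w ≠ x → w ≠ y → z' w = z w := by
      intro w h4 h5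
      simp [hz', h4, h5]
    have h4 : (fun w => (z' w : ℤ)) ∈ Pr F := by
      refine ih z' ?_ ?_ ?_
      · intro w hw
        have := h1 w hw
        simp only [hz', this]
        omega
      · have e1 := add_sum_erase F z' hx
        have e2 := add_sum_erase (F.erase x) z' hy
        have e3 : ∑ w ∈ (F.erase x).erase y, z' w = ∑ w ∈ (F.erase x).erase y, z w := by
          refine sum_congr rfl fun w hw => ?_
          rw [mem_erase, mem_erase] at hw
          exact hz'w w hw.2.1 hw.1
        omega
      · intro w
        by_cases h5 : w = x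
        · rw [h5, hz'x]; omega
        by_cases h6 : w = y
        · rw [h6, hz'y]
          have := h3 y
          omega
        rw [hz'w w h5 h6]
        by_contra hcon
        push Not at hcon
        have h7 : w ∈ F := by
          by_contra h8
          rw [h1 w h8] at hcon
          omega
        have h8 : w ∈ (F.erase x).erase y := mem_erase.2 ⟨h6, mem_erase.2 ⟨h5, h7⟩⟩
        have h9 := hmax2 w (mem_of_mem_erase h8)
        have h10 := single_le_sum (f := z) (fun i _ => Nat.zero_le _) h8
        omega
    have h5 : (fun w => (z w : ℤ)) = (fun w => (z' w : ℤ)) + chi ℤ ({x, y} : Set α) := by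
      funext w
      rw [Pi.add_apply, chi_pair (Ne.symm hyx)]
      by_cases h5 : w = x
      · subst h5
        rw [hz'x, if_pos rfl, if_neg (Ne.symm hyx)]
        omega
      by_cases h6 : w = y
      · subst h6
        rw [hz'y, if_neg h5, if_pos rfl]
        omega
      rw [hz'w w h5 h6, if_neg h5, if_neg h6]
      simp
    rw [h5]
    exact add_mem h4 (AddSubmonoid.subset_closure ⟨x, hx, y, hyF, Ne.symm hyx, rfl⟩)

theorem pairsT [DecidableEq α] (F : Finset α) : ∀ (t n : ℕ) (z : α → ℕ), (∀ x ∉ F, z x = 0) →
    ∑ x ∈ F, z x + t = 2 * n → t ≤ ∑ x ∈ F, z x → (∀ x, z x ≤ n) →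
    ∃ (g : Fin t → α) (w : α → ℤ), (∀ j, g j ∈ F) ∧ w ∈ Pr F ∧
      ∀ x, (z x : ℤ) = (∑ j, if x = g j then 1 else 0) + w x := by
  intro t
  induction t with
  | zero =>
    intro n z h1 h2 _ h4
    exact ⟨fun j => j.elim0, fun x => (z x : ℤ), fun j => j.elim0,
      pairs0 F n z h1 (by simpa using h2) h4, fun x => by simp⟩
  | succ t ih =>
    intro n z h1 h2 h3 h4
    have hne : F.Nonempty := by
      by_contra hcon
      rw [not_nonempty_iff_eq_empty] at hcon
      rw [hcon, sum_empty] at h3
      omega
    obtain ⟨x, hx, hmax⟩ := exists_max_image F z hne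
    have hs := add_sum_erase F z hx
    have hx1 : 1 ≤ z x := by
      by_contra hcon
      have h5 : ∑ w ∈ F, z w = 0 := by
        refine sum_eq_zero fun w hw => ?_
        have := hmax w hw
        omega
      omega
    set z' : α → ℕ := fun w => z w - if w = x then 1 else 0 with hz'
    have hz'x : z' x = z x - 1 := by simp [hz']
    have hz'w : ∀ w, w ≠ x → z' w = z w := by
      intro w h5
      simp [hz', h5]
    have e1 := add_sum_erase F z' hx
    have e3 : ∑ w ∈ F.erase x, z' w = ∑ w ∈ F.erase x, z w := by
      refine sum_congr rfl fun w hw => ?_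
      rw [mem_erase] at hw
      exact hz'w w hw.1
    obtain ⟨g, w, g1, g2, g3⟩ := ih (n - 1) z' (by
      intro w hw
      have := h1 w hw
      simp only [hz', this]
      omega) (by omega) (by omega) (by
      intro w
      by_cases h5 : w = x
      · rw [h5, hz'x]
        have := h4 x
        omega
      rw [hz'w w h5]
      by_contra hcon
      push Not at hcon
      have h7 : w ∈ F := by
        by_contra h8
        rw [h1 w h8] at hcon
        omega
      have h8 : w ∈ F.erase x := mem_erase.2 ⟨h5, h7⟩
      have h9 := hmax w h7
      have h10 := single_le_sum (f := z) (fun i _ => Nat.zero_le _) h8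
      omega)
    refine ⟨Fin.cons x g, w, ?_, g2, ?_⟩
    · intro j
      refine Fin.cases ?_ (fun j => ?_) j
      · exact hx
      · exact g1 j
    · intro u
      rw [Fin.sum_univ_succ]
      simp only [Fin.cons_zero, Fin.cons_succ]
      have := g3 u
      by_cases h5 : u = x
      · subst h5
        rw [hz'x] at this
        rw [if_pos rfl]
        omega
      · rw [hz'w u h5] at this
        rw [if_neg h5]
        omega

end Pool.Agent.helper25.P3
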