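import Pool.Agent.helper25.P3.Part
import Pool.Agent.helper9.HB49.Geo

set_option autoImplicit false
set_option linter.unusedSectionVars false
set_option linter.unusedVariables false

/-!
# Project P3: the matroids with loops and at most three parallel classes
-/

namespace Pool.Agent.helper25.P3

open Finset Pool.Agent.helper9.HB49

variable {α : Type*}

theorem chi_one [DecidableEq α] (x w : α) : chi ℤ ({x} : Set α) w = if w = x then 1 else 0 := by
  classical
  rw [chi_apply]
  simp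

theorem chi_three [DecidableEq α] {x y z : α} (h1 : x ≠ y) (h2 : x ≠ z) (h3 : y ≠ z) (w : α) :
    chi ℤ ({x, y, z} : Set α) w = (if w = x then 1 else 0) + ((if w = y then 1 else 0) +
      if w = z then 1 else 0) := by
  rw [chi3 h1 h2 h3, Pi.add_apply, Pi.add_apply, chi_one, chi_one, chi_one]

/-- loops, pairs inside three classes, transversals of the three classes -/
structure Cls (M : Matroid α) (L : Finset α) (F : Fin 3 → Finset α) : Prop where
  d : ∀ i j, i ≠ j → Disjoint (F i) (F j)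
  dL : ∀ i, Disjoint L (F i)
  circ : ∀ C, M.IsCircuit C ↔ (∃ x ∈ L, C = {x}) ∨
    (∃ i, ∃ x ∈ F i, ∃ y ∈ F i, x ≠ y ∧ C = {x, y}) ∨
    (∃ x ∈ F 0, ∃ y ∈ F 1, ∃ z ∈ F 2, C = {x, y, z})

theorem Cls.ne {M : Matroid α} {L : Finset α} {F : Fin 3 → Finset α} (h : Cls M L F) {i j : Fin 3}
    (hij : i ≠ j) {x y : α} (hx : x ∈ F i) (hy : y ∈ F j) : x ≠ y := by
  rintro rfl
  exact (disjoint_left.1 (h.d i j hij)) hx hy

theorem sum_one [DecidableEq α] (F : Finset α) (x : α) :
    ∑ w ∈ F, (if w = x then (1 : ℤ) else 0) = if x ∈ F then 1 else 0 := by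
  rw [sum_ite_eq']

theorem Cls.sums {M : Matroid α} {L : Finset α} {F : Fin 3 → Finset α} (h : Cls M L F)
    {C : Set α} (hC : M.IsCircuit C) :
    ∃ t : ℤ, 0 ≤ t ∧ (∀ i j, Even (∑ x ∈ F i, chi ℤ C x - ∑ x ∈ F j, chi ℤ C x)) ∧
      (∀ i, t ≤ ∑ x ∈ F i, chi ℤ C x) ∧
      (∀ i, ∀ x ∈ F i, 2 * chi ℤ C x ≤ ∑ x ∈ F i, chi ℤ C x + t) ∧
      (∀ x, x ∉ L → (∀ i, x ∉ F i) → chi ℤ C x = 0) := by
  classical
  rcases (h.circ C).1 hC with ⟨x, hx, rfl⟩ | ⟨i, x, hx, y, hy, hxy, rfl⟩ |
    ⟨x, hx, y, hy, z, hz, rfl⟩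
  · have h1 : ∀ i, ∀ w ∈ F i, chi ℤ ({x} : Set α) w = 0 := by
      intro i w hw
      rw [chi_one, if_neg]
      rintro rfl
      exact (disjoint_left.1 (h.dL i)) hx hw
    have h2 : ∀ i, ∑ w ∈ F i, chi ℤ ({x} : Set α) w = 0 := fun i => sum_eq_zero (h1 i)
    refine ⟨0, le_rfl, fun i j => by rw [h2, h2]; simp, fun i => by rw [h2], ?_, ?_⟩
    · intro i w hw
      rw [h1 i w hw, h2]
      norm_num
    · intro w hw _
      rw [chi_one, if_neg]
      rintro rfl
      exact hw hx
  · have hne : ∀ j, j ≠ i → ∀ w ∈ F j, chi ℤ ({x, y} : Set α) w = 0 := by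
      intro j hj w hw
      rw [chi_pair hxy, if_neg (h.ne hj hw hx), if_neg (h.ne hj hw hy), add_zero]
    have h1 : ∀ j, ∑ w ∈ F j, chi ℤ ({x, y} : Set α) w = if j = i then 2 else 0 := by
      intro j
      by_cases hj : j = i
      · rw [if_pos hj, hj]
        simp only [chi_pair hxy, sum_add_distrib, sum_one, hx, hy, if_true]
        norm_num
      · rw [if_neg hj]
        exact sum_eq_zero (hne j hj)
    refine ⟨0, le_rfl, ?_, ?_, ?_, ?_⟩
    · intro j k
      rw [h1, h1]
      split_ifs <;> decide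
    · intro j
      rw [h1]
      split_ifs <;> norm_num
    · intro j w hw
      rw [h1]
      by_cases hj : j = i
      · rw [if_pos hj, chi_apply]
        split_ifs <;> norm_num
      · rw [hne j hj w hw, if_neg hj]
        norm_num
    · intro w _ hw
      rw [chi_pair hxy, if_neg (fun h2 : w = x => hw i (h2 ▸ hx)),
        if_neg (fun h2 : w = y => hw i (h2 ▸ hy)),
        add_zero]
  · have hxy := h.ne (by decide) hx hy
    have hxz := h.ne (by decide) hx hz
    have hyz := h.ne (by decide) hy hz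
    have n0 : ∀ i, i ≠ 0 → x ∉ F i := fun i hi h1 => h.ne hi h1 hx rfl
    have n1 : ∀ i, i ≠ 1 → y ∉ F i := fun i hi h1 => h.ne hi h1 hy rfl
    have n2 : ∀ i, i ≠ 2 → z ∉ F i := fun i hi h1 => h.ne hi h1 hz rfl
    have h1 : ∀ i, ∑ w ∈ F i, chi ℤ ({x, y, z} : Set α) w = 1 := by
      intro i
      simp only [chi_three hxy hxz hyz, sum_add_distrib, sum_one]
      fin_cases i
      · show (if x ∈ F 0 then (1 : ℤ) else 0) + ((if y ∈ F 0 then 1 else 0) +
          if z ∈ F 0 then 1 else 0) = 1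
        rw [if_pos hx, if_neg (n1 0 (by decide)), if_neg (n2 0 (by decide))]
        norm_num
      · show (if x ∈ F 1 then (1 : ℤ) else 0) + ((if y ∈ F 1 then 1 else 0) +
          if z ∈ F 1 then 1 else 0) = 1
        rw [if_neg (n0 1 (by decide)), if_pos hy, if_neg (n2 1 (by decide))]
        norm_num
      · show (if x ∈ F 2 then (1 : ℤ) else 0) + ((if y ∈ F 2 then 1 else 0) +
          if z ∈ F 2 then 1 else 0) = 1
        rw [if_neg (n0 2 (by decide)), if_neg (n1 2 (by decide)), if_pos hz]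
        norm_num
    refine ⟨1, by norm_num, fun i j => by rw [h1, h1]; simp, fun i => by rw [h1], ?_, ?_⟩
    · intro i w hw
      rw [h1, chi_apply]
      split_ifs <;> norm_num
    · intro w _ hw
      rw [chi_three hxy hxz hyz, if_neg (fun h2 : w = x => hw 0 (h2 ▸ hx)),
        if_neg (fun h2 : w = y => hw 1 (h2 ▸ hy)), if_neg (fun h2 : w = z => hw 2 (h2 ▸ hz))]
      norm_num

theorem Cls.hilbert {M : Matroid α} {L : Finset α} {F : Fin 3 → Finset α}
    (h : Cls M L F) : CircuitsHilbert M := by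
  classical
  rw [hilbert_iff]
  intro p hp hc
  have h0 : ∀ e, 0 ≤ p e := fun e => by
    have := cone_nonneg hc e
    exact_mod_cast this
  have hlat : ∀ z ∈ Lat M, (∀ i j, Even (∑ x ∈ F i, z x - ∑ x ∈ F j, z x)) ∧
      (∀ x, x ∉ L → (∀ i, x ∉ F i) → z x = 0) := by
    intro z hz
    induction hz using AddSubgroup.closure_induction with
    | mem v hv =>
      obtain ⟨C, hC, rfl⟩ := hv
      obtain ⟨t, -, h1, -, -, h2⟩ := h.sums hC
      exact ⟨h1, h2⟩
    | zero => exact ⟨fun i j => by simp, fun x _ _ => rfl⟩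
    | add v w _ _ h1 h2 =>
      refine ⟨fun i j => ?_, fun x a1 a2 => by rw [Pi.add_apply, h1.2 x a1 a2, h2.2 x a1 a2,
        add_zero]⟩
      have e : ∑ x ∈ F i, (v + w) x - ∑ x ∈ F j, (v + w) x = (∑ x ∈ F i, v x - ∑ x ∈ F j, v x) +
          (∑ x ∈ F i, w x - ∑ x ∈ F j, w x) := by
        simp only [Pi.add_apply, sum_add_distrib]
        ring
      rw [e]
      exact (h1.1 i j).add (h2.1 i j)
    | neg v _ h1 =>
      refine ⟨fun i j => ?_, fun x a1 a2 => by rw [Pi.neg_apply, h1.2 x a1 a2, neg_zero]⟩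
      have e : ∑ x ∈ F i, (-v) x - ∑ x ∈ F j, (-v) x = -(∑ x ∈ F i, v x - ∑ x ∈ F j, v x) := by
        simp only [Pi.neg_apply, sum_neg_distrib]
        ring
      rw [e]
      exact (h1.1 i j).neg
  have hcone : ∀ v ∈ Cone M, ∃ t : ℚ, (∀ i, t ≤ ∑ x ∈ F i, v x) ∧
      ∀ i, ∀ x ∈ F i, 2 * v x ≤ ∑ x ∈ F i, v x + t := by
    intro v hv
    induction hv using Submodule.span_induction with
    | mem v hv =>
      obtain ⟨C, hC, rfl⟩ := hv
      obtain ⟨t, -, -, h1, h2, -⟩ := h.sums hC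
      refine ⟨t, fun i => ?_, fun i x hx => ?_⟩
      · have := h1 i
        have h3 : ((t : ℤ) : ℚ) ≤ ((∑ x ∈ F i, chi ℤ C x : ℤ) : ℚ) := by exact_mod_cast this
        push_cast at h3
        simp only [cast_chi] at h3
        exact h3
      · have := h2 i x hx
        have h3 : ((2 * chi ℤ C x : ℤ) : ℚ) ≤ ((∑ x ∈ F i, chi ℤ C x + t : ℤ) : ℚ) := by
          exact_mod_cast this
        push_cast at h3
        simp only [cast_chi] at h3
        exact h3
    | zero => exact ⟨0, fun i => by simp, fun i x _ => by simp⟩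
    | add v w _ _ h1 h2 =>
      obtain ⟨t, a1, a2⟩ := h1
      obtain ⟨u, b1, b2⟩ := h2
      refine ⟨t + u, fun i => ?_, fun i x hx => ?_⟩
      · simp only [Pi.add_apply, sum_add_distrib]
        have := a1 i; have := b1 i
        linarith
      · simp only [Pi.add_apply, sum_add_distrib]
        have := a2 i x hx; have := b2 i x hx
        linarith
    | smul q v _ h1 =>
      obtain ⟨t, a1, a2⟩ := h1
      have hq : (0 : ℚ) ≤ q := q.2
      have h3 : ∀ i, ∑ x ∈ F i, (q • v) x = q * ∑ x ∈ F i, v x := by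
        intro i
        rw [mul_sum]
        exact sum_congr rfl fun x _ => by rw [Pi.smul_apply, NNRat.smul_def]
      refine ⟨q * t, fun i => ?_, fun i x hx => ?_⟩
      · rw [h3]
        exact mul_le_mul_of_nonneg_left (a1 i) hq
      · rw [h3, Pi.smul_apply, NNRat.smul_def]
        have := mul_le_mul_of_nonneg_left (a2 i x hx) hq
        linarith
  obtain ⟨hev, hoff⟩ := hlat p hp
  obtain ⟨t, ht1, ht2⟩ := hcone _ hc
  set S : Fin 3 → ℕ := fun i => ∑ x ∈ F i, (p x).toNat with hS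
  have hScast : ∀ i, (S i : ℤ) = ∑ x ∈ F i, p x := by
    intro i
    simp only [hS]
    push_cast
    exact sum_congr rfl fun x _ => Int.toNat_of_nonneg (h0 x)
  obtain ⟨j0, hj0⟩ : ∃ j0, ∀ i, S j0 ≤ S i := by
    obtain ⟨j0, -, hj0⟩ := exists_min_image (univ : Finset (Fin 3)) S ⟨0, mem_univ _⟩
    exact ⟨j0, fun i => hj0 i (mem_univ _)⟩
  set T := S j0 with hT
  have htT : t ≤ T := by
    have := ht1 j0
    have h1 : ((S j0 : ℤ) : ℚ) = ∑ x ∈ F j0, (p x : ℚ) := by
      rw [hScast j0]; push_cast; rfl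
    rw [← h1] at this
    exact_mod_cast this
  have hpar : ∀ i, ∃ n, S i + T = 2 * n := by
    intro i
    have h1 := hev i j0
    rw [← hScast, ← hScast] at h1
    obtain ⟨k, hk⟩ := h1
    refine ⟨(k + S j0).toNat, ?_⟩
    omega
  choose n hn using hpar
  have hex : ∀ i, ∃ (g : Fin T → α) (w : α → ℤ), (∀ j, g j ∈ F i) ∧ w ∈ Pr (F i) ∧
      ∀ x, (((if x ∈ F i then (p x).toNat else 0 : ℕ)) : ℤ) =
        (∑ j, if x = g j then 1 else 0) + w x := by
    intro i
    have hs : ∑ x ∈ F i, (if x ∈ F i then (p x).toNat else 0) = S i := by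
      simp only [hS]
      exact sum_congr rfl fun x hx => if_pos hx
    refine pairsT (F i) T (n i) (fun x => if x ∈ F i then (p x).toNat else 0)
      (fun x hx => if_neg hx) ?_ ?_ ?_
    · rw [hs]; exact hn i
    · rw [hs]; exact hj0 i
    · intro x
      split_ifs with hx
      · have h1 := ht2 i x hx
        have h2 : ((S i : ℤ) : ℚ) = ∑ x ∈ F i, (p x : ℚ) := by
          rw [hScast i]; push_cast; rfl
        rw [← h2] at h1
        have h3 : 2 * (p x : ℚ) ≤ (S i : ℤ) + T := h1.trans (by push_cast; linarith)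
        have h4 : 2 * p x ≤ (S i : ℤ) + T := by exact_mod_cast h3
        have h5 := hn i
        omega
      · exact Nat.zero_le _
  choose g w hg hw hgw using hex
  have hPr : ∀ i, Pr (F i) ≤ IntCone M := by
    intro i
    unfold Pr
    rw [AddSubmonoid.closure_le]
    rintro v ⟨x, hx, y, hy, hxy, rfl⟩
    exact chi_mem_intCone ((h.circ _).2 (Or.inr (Or.inl ⟨i, x, hx, y, hy, hxy, rfl⟩)))
  have hfin : p = (∑ j : Fin T, chi ℤ ({g 0 j, g 1 j, g 2 j} : Set α)) + (w 0 + (w 1 + w 2)) +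
      ∑ x ∈ L, (p x).toNat • chi ℤ ({x} : Set α) := by
    funext u
    rw [Pi.add_apply, Pi.add_apply, Pi.add_apply, Pi.add_apply, Finset.sum_apply,
      Finset.sum_apply]
    have e1 : ∑ j : Fin T, chi ℤ ({g 0 j, g 1 j, g 2 j} : Set α) u =
        (∑ j, if u = g 0 j then (1 : ℤ) else 0) + ((∑ j, if u = g 1 j then 1 else 0) +
          ∑ j, if u = g 2 j then 1 else 0) := by
      rw [← sum_add_distrib, ← sum_add_distrib]
      refine sum_congr rfl fun j _ => ?_
      exact chi_three (h.ne (by decide) (hg 0 j) (hg 1 j)) (h.ne (by decide) (hg 0 j) (hg 2 j))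
        (h.ne (by decide) (hg 1 j) (hg 2 j)) u
    have e2 : ∑ x ∈ L, ((p x).toNat • chi ℤ ({x} : Set α)) u = if u ∈ L then p u else 0 := by
      have : ∀ x ∈ L, ((p x).toNat • chi ℤ ({x} : Set α)) u = if u = x then p x else 0 := by
        intro x _
        rw [Pi.smul_apply, chi_one]
        split_ifs
        · rw [nsmul_eq_mul, mul_one]
          exact Int.toNat_of_nonneg (h0 x)
        · simp
      rw [sum_congr rfl this, sum_ite_eq]
    rw [e1, e2]
    have a0 := hgw 0 u; have a1 := hgw 1 u; have a2 := hgw 2 u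
    have hpu := h0 u
    by_cases u0 : u ∈ F 0
    · have u1 : u ∉ F 1 := fun h1 => h.ne (by decide : (0 : Fin 3) ≠ 1) u0 h1 rfl
      have u2 : u ∉ F 2 := fun h1 => h.ne (by decide : (0 : Fin 3) ≠ 2) u0 h1 rfl
      have uL : u ∉ L := fun h1 => (disjoint_left.1 (h.dL 0)) h1 u0
      rw [if_pos u0] at a0
      rw [if_neg u1] at a1
      rw [if_neg u2] at a2
      rw [if_neg uL]
      push_cast at a0 a1 a2
      rw [Int.toNat_of_nonneg hpu] at a0
      linarith
    by_cases u1 : u ∈ F 1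
    · have u2 : u ∉ F 2 := fun h1 => h.ne (by decide : (1 : Fin 3) ≠ 2) u1 h1 rfl
      have uL : u ∉ L := fun h1 => (disjoint_left.1 (h.dL 1)) h1 u1
      rw [if_neg u0] at a0
      rw [if_pos u1] at a1
      rw [if_neg u2] at a2
      rw [if_neg uL]
      push_cast at a0 a1 a2
      rw [Int.toNat_of_nonneg hpu] at a1
      linarith
    by_cases u2 : u ∈ F 2
    · have uL : u ∉ L := fun h1 => (disjoint_left.1 (h.dL 2)) h1 u2
      rw [if_neg u0] at a0
      rw [if_neg u1] at a1
      rw [if_pos u2] at a2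
      rw [if_neg uL]
      push_cast at a0 a1 a2
      rw [Int.toNat_of_nonneg hpu] at a2
      linarith
    rw [if_neg u0] at a0
    rw [if_neg u1] at a1
    rw [if_neg u2] at a2
    push_cast at a0 a1 a2
    by_cases uL : u ∈ L
    · rw [if_pos uL]
      linarith
    · rw [if_neg uL]
      have h5 := hoff u uL (fun i => by fin_cases i <;> assumption)
      linarith
  rw [hfin]
  refine add_mem (add_mem ?_ (add_mem (hPr 0 (hw 0)) (add_mem (hPr 1 (hw 1)) (hPr 2 (hw 2))))) ?_
  · refine sum_mem fun j _ => chi_mem_intCone ((h.circ _).2 (Or.inr (Or.inr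
      ⟨g 0 j, hg 0 j, g 1 j, hg 1 j, g 2 j, hg 2 j, rfl⟩)))
  · refine sum_mem fun x hx => AddSubmonoid.nsmul_mem _ (chi_mem_intCone ((h.circ _).2
      (Or.inl ⟨x, hx, rfl⟩))) _

end Pool.Agent.helper25.P3
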