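import Pool.Agent.helper25.P3.Fano
import Pool.Agent.helper25.PV.Main

set_option autoImplicit false
set_option linter.unusedSectionVars false
set_option linter.unusedVariables false

/-!
# Project P3: binary plane matroids
-/

namespace Pool.Agent.helper25.P3

open Finset Pool.Agent.helper9.HB49 Pool.Agent.helper25.PV

variable {α : Type*} {M : Matroid α} [M.Finite]

/-- a representation over the field of two elements of a simple matroid of rank three -/
structure Rep (M : Matroid α) (f : α → Fin 3 → ZMod 2) : Prop where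
  ne : ∀ x ∈ M.E, f x ≠ 0
  inj : ∀ x ∈ M.E, ∀ y ∈ M.E, f x = f y → x = y
  col : ∀ x ∈ M.E, ∀ y ∈ M.E, ∀ z ∈ M.E, x ≠ y → x ≠ z → y ≠ z →
    (D M x y z ↔ f x + f y + f z = 0)
  sum : ∀ C : Finset α, M.IsCircuit (C : Set α) → ∑ x ∈ C, f x = 0

/-- the incidence sum -/
noncomputable def T (f : α → Fin 3 → ZMod 2) (E : Finset α) (l : Fin 7) (v : α → ℤ) : ℤ :=
  ∑ x ∈ E, inc l (dec (f x)) * v x

theorem T_chi (f : α → Fin 3 → ZMod 2) {E : Finset α} (l : Fin 7) {C : Finset α} (hC : C ⊆ E) :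
    T f E l (chi ℤ (C : Set α)) = ∑ x ∈ C, inc l (dec (f x)) := by
  classical
  unfold T
  rw [← sum_subset hC]
  · refine sum_congr rfl fun x hx => ?_
    rw [chi_apply_mem (mem_coe.2 hx), mul_one]
  · intro x _ hx
    rw [chi_apply_notMem (by simpa using hx), mul_zero]

theorem Rep.circ {f : α → Fin 3 → ZMod 2} (h : Rep M f) (hP : Pv M 3) {C : Finset α}
    (hC : M.IsCircuit (C : Set α)) :
    (∀ l, Even (∑ x ∈ C, inc l (dec (f x)))) ∧ ∑ l, |∑ x ∈ C, inc l (dec (f x)) - 2| ≤ 2 := by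
  classical
  have hE := hC.subset_ground
  have h1 := circuit_rk hC
  have h2 := hP.pav _ hC
  have h3 := hP.rk_le (C : Set α)
  have hsum := h.sum C hC
  rw [Set.ncard_coe_finset] at h1 h2
  have hcard : C.card = 3 ∨ C.card = 4 := by omega
  rcases hcard with h4 | h4
  · obtain ⟨x, y, z, hxy, hxz, hyz, rfl⟩ := card_eq_three.1 h4
    have hx : x ∈ M.E := hE (by simp)
    have hy : y ∈ M.E := hE (by simp)
    have hz : z ∈ M.E := hE (by simp)
    have e1 : ∀ {β : Type} [AddCommMonoid β] (g : α → β), ∑ u ∈ ({x, y, z} : Finset α), g u =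
        g x + (g y + g z) := by
      intro β _ g
      rw [sum_insert (by simp [hxy, hxz]), sum_insert (by simp [hyz]), sum_singleton]
    rw [e1] at hsum
    have := line3 (dec (f x)) (dec (f y)) (dec (f z)) (fun h5 => hxy (h.inj x hx y hy (by
      rw [← vec_dec _ (h.ne x hx), h5, vec_dec _ (h.ne y hy)]))) (by
      rw [vec_dec _ (h.ne x hx), vec_dec _ (h.ne y hy), vec_dec _ (h.ne z hz), add_assoc, hsum])
    refine ⟨fun l => by rw [e1]; exact this.1 l, ?_⟩
    rw [sum_congr rfl fun l _ => by rw [e1]]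
    exact this.2
  · obtain ⟨x, y, z, w, hxy, hxz, hxw, hyz, hyw, hzw, rfl⟩ : ∃ x y z w : α, x ≠ y ∧ x ≠ z ∧
        x ≠ w ∧ y ≠ z ∧ y ≠ w ∧ z ≠ w ∧ C = {x, y, z, w} := by
      obtain ⟨x, C', hx, rfl, hC'⟩ := card_eq_succ.1 h4
      obtain ⟨y, z, w, hyz, hyw, hzw, rfl⟩ := card_eq_three.1 hC'
      simp only [mem_insert, mem_singleton, not_or] at hx
      exact ⟨x, y, z, w, hx.1, hx.2.1, hx.2.2, hyz, hyw, hzw, rfl⟩
    have hx : x ∈ M.E := hE (by simp)
    have hy : y ∈ M.E := hE (by simp)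
    have hz : z ∈ M.E := hE (by simp)
    have hw : w ∈ M.E := hE (by simp)
    have e1 : ∀ {β : Type} [AddCommMonoid β] (g : α → β), ∑ u ∈ ({x, y, z, w} : Finset α), g u =
        g x + (g y + (g z + g w)) := by
      intro β _ g
      rw [sum_insert (by simp [hxy, hxz, hxw]), sum_insert (by simp [hyz, hyw]),
        sum_insert (by simp [hzw]), sum_singleton]
    rw [e1] at hsum
    have hfw : f w = f x + f y + f z := by
      have h5 : f x + f y + f z + f w = 0 := by
        rw [← hsum]; abel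
      have h6 : f w = -(f x + f y + f z) := by
        rw [eq_neg_iff_add_eq_zero, ← h5]; abel
      rw [h6]
      funext j
      rw [Pi.neg_apply]
      exact ZMod.neg_eq_self_mod_two _
    have hD : ¬ D M x y z := by
      refine not_D_of_indep hxy hxz hyz (indep_sub_circuit hC ?_ ?_)
      · intro u hu
        simp only [Set.mem_insert_iff, Set.mem_singleton_iff] at hu
        simp only [coe_insert, coe_singleton, Set.mem_insert_iff, Set.mem_singleton_iff]
        tauto
      · rw [ncard3 hxy hxz hyz, Set.ncard_coe_finset, h4]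
        norm_num
    have h5 : f x + f y + f z ≠ 0 := fun h6 => hD ((h.col x hx y hy z hz hxy hxz hyz).2 h6)
    have nn : ∀ {u v : α}, u ∈ M.E → v ∈ M.E → u ≠ v → dec (f u) ≠ dec (f v) := by
      intro u v hu hv huv h6
      exact huv (h.inj u hu v hv (by rw [← vec_dec _ (h.ne u hu), h6, vec_dec _ (h.ne v hv)]))
    have := quad4 (dec (f x)) (dec (f y)) (dec (f z)) (nn hx hy hxy) (nn hx hz hxz)
      (nn hy hz hyz) (by
      rw [vec_dec _ (h.ne x hx), vec_dec _ (h.ne y hy), vec_dec _ (h.ne z hz)]; exact h5)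
    rw [vec_dec _ (h.ne x hx), vec_dec _ (h.ne y hy), vec_dec _ (h.ne z hz), ← hfw] at this
    refine ⟨fun l => by rw [e1]; exact this.1 l, ?_⟩
    rw [sum_congr rfl fun l _ => by rw [e1]]
    exact this.2

/-- the circuit of a line -/
theorem Rep.line {f : α → Fin 3 → ZMod 2} (h : Rep M f) (hP : Pv M 3) (i : Fin 7)
    (hfull : ∀ j, inc i j = 0 → ∃ x ∈ M.E, dec (f x) = j) :
    M.IsCircuit {x | x ∈ M.E ∧ inc i (dec (f x)) = 0} := by
  obtain ⟨a, b, c, hab, hac, hbc, hs, hj⟩ := set3 i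
  obtain ⟨x, hx, rfl⟩ := hfull a ((hj a).2 (Or.inl rfl))
  obtain ⟨y, hy, rfl⟩ := hfull b ((hj b).2 (Or.inr (Or.inl rfl)))
  obtain ⟨z, hz, rfl⟩ := hfull c ((hj c).2 (Or.inr (Or.inr rfl)))
  have hxy : x ≠ y := fun h1 => hab (by rw [h1])
  have hxz : x ≠ z := fun h1 => hac (by rw [h1])
  have hyz : y ≠ z := fun h1 => hbc (by rw [h1])
  rw [vec_dec _ (h.ne x hx), vec_dec _ (h.ne y hy), vec_dec _ (h.ne z hz)] at hs
  have hset : {u | u ∈ M.E ∧ inc i (dec (f u)) = 0} = ({x, y, z} : Set α) := by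
    ext u
    simp only [Set.mem_ofPred_eq, Set.mem_insert_iff, Set.mem_singleton_iff]
    have inj' : ∀ v ∈ M.E, u ∈ M.E → dec (f u) = dec (f v) → u = v := by
      intro v hv hu h1
      exact h.inj u hu v hv (by rw [← vec_dec _ (h.ne u hu), h1, vec_dec _ (h.ne v hv)])
    constructor
    · rintro ⟨hu, h1⟩
      rcases (hj _).1 h1 with h2 | h2 | h2
      · exact Or.inl (inj' x hx hu h2)
      · exact Or.inr (Or.inl (inj' y hy hu h2))
      · exact Or.inr (Or.inr (inj' z hz hu h2))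
    · rintro (rfl | rfl | rfl)
      · exact ⟨hx, (hj _).2 (Or.inl rfl)⟩
      · exact ⟨hy, (hj _).2 (Or.inr (Or.inl rfl))⟩
      · exact ⟨hz, (hj _).2 (Or.inr (Or.inr rfl))⟩
  rw [hset]
  classical
  have np : ∀ {u v : α}, u ∈ M.E → v ∈ M.E → u ≠ v → ¬ P M u v := by
    intro u v hu hv huv
    refine not_P_of_indep huv ?_
    have := hP.indep (D := {u, v}) (by
      intro w hw
      simp only [coe_insert, coe_singleton, Set.mem_insert_iff, Set.mem_singleton_iff] at hw
      rcases hw with rfl | rfl <;> assumption) (by rw [card_pair huv]; norm_num)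
    simpa using this
  exact circ3 hx hy hz ((h.col x hx y hy z hz hxy hxz hyz).2 hs) (np hx hy hxy) (np hx hz hxz)
    (np hy hz hyz)

/-- the circuit of the complement of a line -/
theorem Rep.quad {f : α → Fin 3 → ZMod 2} (h : Rep M f) (hP : Pv M 3) (i : Fin 7)
    (hfull : ∀ j, inc i j = 1 → ∃ x ∈ M.E, dec (f x) = j) :
    M.IsCircuit {x | x ∈ M.E ∧ inc i (dec (f x)) = 1} := by
  obtain ⟨a, b, c, d, hab, hac, had, hbc, hbd, hcd, s1, s2, s3, s4, hj⟩ := set4 i
  obtain ⟨x, hx, rfl⟩ := hfull a ((hj a).2 (Or.inl rfl))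
  obtain ⟨y, hy, rfl⟩ := hfull b ((hj b).2 (Or.inr (Or.inl rfl)))
  obtain ⟨z, hz, rfl⟩ := hfull c ((hj c).2 (Or.inr (Or.inr (Or.inl rfl))))
  obtain ⟨w, hw, rfl⟩ := hfull d ((hj d).2 (Or.inr (Or.inr (Or.inr rfl))))
  have hxy : x ≠ y := fun h1 => hab (by rw [h1])
  have hxz : x ≠ z := fun h1 => hac (by rw [h1])
  have hxw : x ≠ w := fun h1 => had (by rw [h1])
  have hyz : y ≠ z := fun h1 => hbc (by rw [h1])
  have hyw : y ≠ w := fun h1 => hbd (by rw [h1])
  have hzw : z ≠ w := fun h1 => hcd (by rw [h1])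
  simp only [vec_dec _ (h.ne x hx), vec_dec _ (h.ne y hy), vec_dec _ (h.ne z hz),
    vec_dec _ (h.ne w hw)] at s1 s2 s3 s4
  have hset : {u | u ∈ M.E ∧ inc i (dec (f u)) = 1} = ({x, y, z, w} : Set α) := by
    ext u
    simp only [Set.mem_ofPred_eq, Set.mem_insert_iff, Set.mem_singleton_iff]
    have inj' : ∀ v ∈ M.E, u ∈ M.E → dec (f u) = dec (f v) → u = v := by
      intro v hv hu h1
      exact h.inj u hu v hv (by rw [← vec_dec _ (h.ne u hu), h1, vec_dec _ (h.ne v hv)])
    constructor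
    · rintro ⟨hu, h1⟩
      rcases (hj _).1 h1 with h2 | h2 | h2 | h2
      · exact Or.inl (inj' x hx hu h2)
      · exact Or.inr (Or.inl (inj' y hy hu h2))
      · exact Or.inr (Or.inr (Or.inl (inj' z hz hu h2)))
      · exact Or.inr (Or.inr (Or.inr (inj' w hw hu h2)))
    · rintro (rfl | rfl | rfl | rfl)
      · exact ⟨hx, (hj _).2 (Or.inl rfl)⟩
      · exact ⟨hy, (hj _).2 (Or.inr (Or.inl rfl))⟩
      · exact ⟨hz, (hj _).2 (Or.inr (Or.inr (Or.inl rfl)))⟩
      · exact ⟨hw, (hj _).2 (Or.inr (Or.inr (Or.inr rfl)))⟩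
  rw [hset]
  classical
  refine circ4 hP.rk_le hx hy hz hw ?_ ?_ ?_ ?_
  · exact fun h1 => s1 ((h.col x hx y hy z hz hxy hxz hyz).1 h1)
  · exact fun h1 => s2 ((h.col x hx y hy w hw hxy hxw hyw).1 h1)
  · exact fun h1 => s3 ((h.col x hx z hz w hw hxz hxw hzw).1 h1)
  · exact fun h1 => s4 ((h.col y hy z hz w hw hyz hyw hzw).1 h1)

theorem Rep.hilbert {f : α → Fin 3 → ZMod 2} (h : Rep M f) (hP : Pv M 3) : CircuitsHilbert M := by
  classical
  rw [hilbert_iff]
  intro p hp hc
  set E := M.ground_finite.toFinset with hE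
  have memE : ∀ x, x ∈ E ↔ x ∈ M.E := fun x => by rw [hE, Set.Finite.mem_toFinset]
  have toF : ∀ C : Set α, M.IsCircuit C → ∃ F : Finset α, (F : Set α) = C ∧ F ⊆ E := by
    intro C hC
    refine ⟨(circuit_finite hC).toFinset, by simp, fun x hx => ?_⟩
    rw [Set.Finite.mem_toFinset] at hx
    exact (memE x).2 (hC.subset_ground hx)
  have h0 : ∀ e, 0 ≤ p e := fun e => by
    have := cone_nonneg hc e
    exact_mod_cast this
  -- the lattice
  have hlat : ∀ z ∈ Lat M, (∀ l, Even (T f E l z)) ∧ ∀ x ∉ M.E, z x = 0 := by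
    intro z hz
    induction hz using AddSubgroup.closure_induction with
    | mem v hv =>
      obtain ⟨C, hC, rfl⟩ := hv
      obtain ⟨F, rfl, hF⟩ := toF C hC
      refine ⟨fun l => ?_, fun x hx => chi_apply_notMem fun h1 => hx (hC.subset_ground h1)⟩
      rw [T_chi f l hF]
      exact (h.circ hP hC).1 l
    | zero => exact ⟨fun l => by simp [T], fun x _ => rfl⟩
    | add v w _ _ h1 h2 =>
      refine ⟨fun l => ?_, fun x hx => by rw [Pi.add_apply, h1.2 x hx, h2.2 x hx, add_zero]⟩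
      have : T f E l (v + w) = T f E l v + T f E l w := by
        unfold T
        rw [← sum_add_distrib]
        exact sum_congr rfl fun x _ => by rw [Pi.add_apply]; ring
      rw [this]
      exact (h1.1 l).add (h2.1 l)
    | neg v _ h1 =>
      refine ⟨fun l => ?_, fun x hx => by rw [Pi.neg_apply, h1.2 x hx, neg_zero]⟩
      have : T f E l (-v) = - T f E l v := by
        unfold T
        rw [← sum_neg_distrib]
        exact sum_congr rfl fun x _ => by rw [Pi.neg_apply]; ring
      rw [this]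
      exact (h1.1 l).neg
  obtain ⟨hev, hoff⟩ := hlat p hp
  -- the cone
  have hcone : ∀ v ∈ Cone M, ∃ t : ℚ, ∑ l, |∑ x ∈ E, (inc l (dec (f x)) : ℚ) * v x - 2 * t| ≤
      2 * t := by
    intro v hv
    induction hv using Submodule.span_induction with
    | mem v hv =>
      obtain ⟨C, hC, rfl⟩ := hv
      obtain ⟨F, rfl, hF⟩ := toF C hC
      refine ⟨1, ?_⟩
      have h1 := (h.circ hP hC).2
      have h2 : ∀ l, ∑ x ∈ E, (inc l (dec (f x)) : ℚ) * chi ℚ (F : Set α) x =
          ((∑ x ∈ F, inc l (dec (f x)) : ℤ) : ℚ) := by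
        intro l
        rw [← T_chi f l hF]
        unfold T
        push_cast
        exact sum_congr rfl fun x _ => by rw [cast_chi]
      rw [sum_congr rfl fun l _ => by rw [h2 l]]
      rw [mul_one]
      exact_mod_cast h1
    | zero => exact ⟨0, by simp⟩
    | add v w _ _ h1 h2 =>
      obtain ⟨t, ht⟩ := h1
      obtain ⟨u, hu⟩ := h2
      refine ⟨t + u, ?_⟩
      have h3 : ∀ l ∈ (univ : Finset (Fin 7)),
          |∑ x ∈ E, (inc l (dec (f x)) : ℚ) * (v + w) x - 2 * (t + u)| ≤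
          |∑ x ∈ E, (inc l (dec (f x)) : ℚ) * v x - 2 * t| +
          |∑ x ∈ E, (inc l (dec (f x)) : ℚ) * w x - 2 * u| := by
        intro l _
        have h4 : ∑ x ∈ E, (inc l (dec (f x)) : ℚ) * (v + w) x - 2 * (t + u) =
            (∑ x ∈ E, (inc l (dec (f x)) : ℚ) * v x - 2 * t) +
            (∑ x ∈ E, (inc l (dec (f x)) : ℚ) * w x - 2 * u) := by
          simp only [Pi.add_apply, mul_add, sum_add_distrib]
          ring
        rw [h4]
        exact abs_add_le _ _
      refine (sum_le_sum h3).trans ?_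
      rw [sum_add_distrib]
      linarith
    | smul q v _ h1 =>
      obtain ⟨t, ht⟩ := h1
      refine ⟨q * t, ?_⟩
      have hq : (0 : ℚ) ≤ q := q.2
      have h3 : ∀ l ∈ (univ : Finset (Fin 7)),
          |∑ x ∈ E, (inc l (dec (f x)) : ℚ) * (q • v) x - 2 * (q * t)| =
          q * |∑ x ∈ E, (inc l (dec (f x)) : ℚ) * v x - 2 * t| := by
        intro l _
        have h4 : ∑ x ∈ E, (inc l (dec (f x)) : ℚ) * (q • v) x - 2 * (q * t) =
            q * (∑ x ∈ E, (inc l (dec (f x)) : ℚ) * v x - 2 * t) := by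
          rw [mul_sub, mul_sum]
          congr 1
          · exact sum_congr rfl fun x _ => by rw [Pi.smul_apply, NNRat.smul_def]; ring
          · ring
        rw [h4, abs_mul, abs_of_nonneg hq]
      rw [sum_congr rfl h3, ← mul_sum]
      calc (q : ℚ) * ∑ l, |∑ x ∈ E, (inc l (dec (f x)) : ℚ) * v x - 2 * t| ≤ q * (2 * t) :=
            mul_le_mul_of_nonneg_left ht hq
        _ = 2 * (q * t) := by ring
  obtain ⟨t, ht⟩ := hcone _ hc
  set Q : Fin 7 → ℤ := fun j => ∑ x ∈ E, if dec (f x) = j then p x else 0 with hQ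
  have hTQ : ∀ l, ∑ j, inc l j * Q j = T f E l p := by
    intro l
    unfold T
    simp only [hQ, mul_sum]
    rw [sum_comm]
    refine sum_congr rfl fun x _ => ?_
    rw [sum_eq_single (dec (f x))]
    · rw [if_pos rfl]
    · intro j _ hj
      rw [if_neg (Ne.symm hj), mul_zero]
    · intro h1
      exact absurd (mem_univ _) h1
  obtain ⟨c, d, hcd⟩ := f7dec Q (fun i => by rw [hTQ i]; exact hev i) t (by
    have h2 : ∀ i, ((∑ j, inc i j * Q j : ℤ) : ℚ) = ∑ x ∈ E, (inc i (dec (f x)) : ℚ) * p x := by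
      intro i
      rw [hTQ i]
      unfold T
      push_cast
      rfl
    rw [sum_congr rfl fun i _ => by rw [h2 i]]
    exact ht)
  have hQp : ∀ x ∈ M.E, Q (dec (f x)) = p x := by
    intro x hx
    simp only [hQ]
    rw [sum_eq_single x]
    · rw [if_pos rfl]
    · intro y hy hyx
      refine if_neg fun h1 => hyx ?_
      exact h.inj y ((memE y).1 hy) x hx (by
        rw [← vec_dec _ (h.ne y ((memE y).1 hy)), h1, vec_dec _ (h.ne x hx)])
    · intro h1
      exact absurd ((memE x).2 hx) h1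
  have hQ0 : ∀ j, Q j ≠ 0 → ∃ x ∈ M.E, dec (f x) = j := by
    intro j hj
    by_contra hcon
    push Not at hcon
    apply hj
    simp only [hQ]
    refine sum_eq_zero fun x hx => if_neg (hcon x ((memE x).1 hx))
  have hterm : ∀ i j, 0 ≤ inc i j * (c i : ℤ) + (1 - inc i j) * (d i : ℤ) := by
    intro i j
    rcases inc01 i j with h1 | h1 <;> rw [h1] <;> simp
  have hge : ∀ i j, inc i j * (c i : ℤ) + (1 - inc i j) * (d i : ℤ) ≤ Q j := by
    intro i j
    rw [hcd j]
    exact single_le_sum (f := fun i => inc i j * (c i : ℤ) + (1 - inc i j) * (d i : ℤ))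
      (fun i _ => hterm i j) (mem_univ i)
  have hKc : ∀ i, 0 < c i → M.IsCircuit {x | x ∈ M.E ∧ inc i (dec (f x)) = 1} := by
    intro i hi
    refine h.quad hP i fun j hj => hQ0 j ?_
    have := hge i j
    rw [hj] at this
    have h1 : (0 : ℤ) < c i := by exact_mod_cast hi
    linarith
  have hLc : ∀ i, 0 < d i → M.IsCircuit {x | x ∈ M.E ∧ inc i (dec (f x)) = 0} := by
    intro i hi
    refine h.line hP i fun j hj => hQ0 j ?_
    have := hge i j
    rw [hj] at this
    have h1 : (0 : ℤ) < d i := by exact_mod_cast hi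
    linarith
  have hfin : p = ∑ i, (c i • chi ℤ {x | x ∈ M.E ∧ inc i (dec (f x)) = 1} +
      d i • chi ℤ {x | x ∈ M.E ∧ inc i (dec (f x)) = 0}) := by
    funext x
    rw [Finset.sum_apply]
    by_cases hx : x ∈ M.E
    · rw [← hQp x hx, hcd]
      refine sum_congr rfl fun i _ => ?_
      rw [Pi.add_apply, Pi.smul_apply, Pi.smul_apply, chi_apply, chi_apply]
      simp only [Set.mem_ofPred_eq, hx, true_and]
      rcases inc01 i (dec (f x)) with h1 | h1 <;> rw [h1] <;> simp
    · rw [hoff x hx]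
      symm
      refine sum_eq_zero fun i _ => ?_
      rw [Pi.add_apply, Pi.smul_apply, Pi.smul_apply, chi_apply_notMem (fun h1 => hx h1.1),
        chi_apply_notMem (fun h1 => hx h1.1)]
      simp
  rw [hfin]
  refine sum_mem fun i _ => add_mem ?_ ?_
  · rcases Nat.eq_zero_or_pos (c i) with h1 | h1
    · rw [h1, zero_smul]; exact zero_mem _
    · exact AddSubmonoid.nsmul_mem _ (chi_mem_intCone (hKc i h1)) _
  · rcases Nat.eq_zero_or_pos (d i) with h1 | h1
    · rw [h1, zero_smul]; exact zero_mem _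
    · exact AddSubmonoid.nsmul_mem _ (chi_mem_intCone (hLc i h1)) _

end Pool.Agent.helper25.P3
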